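import Pool.Agent.NUWC.PSD
import Pool.Agent.NUE.Red

/-!
# Window weight against compactly supported kernel

`UG G s = V s - RG G s` vanishes for `|s| ≥ G`.  `lemA`: for real density `ρ` (integrable, bounded)
`- Σ_{i<j} V + Σ V*ρ ≤ - Σ_{i<j} U + Σ U*ρ + (1/2) <ρ, R ρ> + (n/2) R 0`.
-/

set_option autoImplicit false

open MeasureTheory Set Filter Topology

namespace NUWC

open NUMF

noncomputable section

/-- the compactly supported kernel -/
def UG (G s : ℝ) : ℝ := V s - RG G s

lemma UG_out {G s : ℝ} (hG : 1 ≤ G) (hs : G ≤ |s|) : UG G s = 0 := by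
  unfold UG
  rw [RG_out hG hs, sub_self]

lemma RG_neg (G s : ℝ) : RG G (-s) = RG G s := by
  unfold RG
  simp_rw [abs_neg]

lemma UG_neg (G s : ℝ) : UG G (-s) = UG G s := by
  unfold UG
  rw [V_neg, RG_neg]

/-- `V - R ≥ 0` by convexity -/
lemma UG_nonneg {G s : ℝ} (hG : 1 ≤ G) (hs : s ≠ 0) : 0 ≤ UG G s := by
  rcases le_or_gt G |s| with h | h
  · rw [UG_out hG h]
  · unfold UG
    rw [← V_abs s, RG_in hG h.le]
    have hx : 0 < |s| := abs_pos.2 hs
    set x := |s| with hxd
    have h1 : ∀ y ∈ Icc x G, HasDerivWithinAt (fun y => V y + V1 y * (G - y)) (V2 y * (G - y)) (Icc x G) y := by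
      intro y hy
      have hy0 : 0 < y := lt_of_lt_of_le hx hy.1
      have h2 := (hasDerivAt_V hy0).add ((hasDerivAt_V1 hy0).mul ((hasDerivAt_const y G).sub (hasDerivAt_id y)))
      refine (h2.congr_deriv ?_).hasDerivWithinAt
      simp only [id, Pi.sub_apply]
      ring
    have h1' : ∀ y ∈ Icc x G, HasDerivWithinAt (fun y => V y - (V G - V1 G * (G - y))) (V1 y - V1 G) (Icc x G) y := by
      intro y hy
      have hy0 : 0 < y := lt_of_lt_of_le hx hy.1
      have h2 := (hasDerivAt_V hy0).sub ((hasDerivAt_const y (V G)).sub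
        (((hasDerivAt_const y G).sub (hasDerivAt_id y)).const_mul (V1 G)))
      refine (h2.congr_deriv ?_).hasDerivWithinAt
      ring
    have hmono : ∀ y ∈ Icc x G, V1 y ≤ V1 G := by
      intro y hy
      have hy0 : 0 < y := lt_of_lt_of_le hx hy.1
      have hm : MonotoneOn V1 (Ioi 0) := by
        refine monotoneOn_of_deriv_nonneg (convex_Ioi 0) V1_cont ?_ ?_
        · rw [interior_Ioi]
          exact fun z hz => (hasDerivAt_V1 hz).differentiableAt.differentiableWithinAt
        · rw [interior_Ioi]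
          intro z hz
          rw [(hasDerivAt_V1 hz).deriv]
          exact (V2_pos hz).le
      exact hm hy0 (show (0:ℝ) < G by linarith) hy.2
    have hanti : AntitoneOn (fun y => V y - (V G - V1 G * (G - y))) (Icc x G) := by
      refine antitoneOn_of_deriv_nonpos (convex_Icc x G) (fun y hy => (h1' y hy).continuousWithinAt) ?_ ?_
      · intro y hy
        exact ((h1' y (interior_subset hy)).mono interior_subset).differentiableWithinAt
      · intro y hy
        have hy' := interior_subset hy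
        rw [interior_Icc] at hy
        rw [((h1' y hy').hasDerivAt (Icc_mem_nhds hy.1 hy.2)).deriv]
        linarith [hmono y hy']
    have := hanti (left_mem_Icc.2 h.le) (right_mem_Icc.2 h.le) h.le
    simp only [sub_self, mul_zero, sub_zero] at this
    linarith

/-- positive definiteness for points against a density -/
theorem pts_psd {n : ℕ} (t : Fin n → ℝ) {ρ : ℝ → ℝ} (hρ : Integrable ρ) {G : ℝ} (hG : 1 ≤ G) :
    0 ≤ (∑ i, ∑ j, RG G (t i - t j)) - 2 * (∑ i, (∫ s, ρ s * RG G (t i - s))) +
      ∫ s, ρ s * ∫ s', ρ s' * RG G (s - s') := by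
  have hRb : ∀ s, ‖RG G s‖ ≤ RG G 0 := fun s => by
    rw [Real.norm_eq_abs, abs_of_nonneg (RG_nonneg hG s)]; exact RG_le hG s
  have hRm := RG_meas G
  set ei : Fin n → Fin n ⊕ ℝ := Sum.inl with hei
  set er : ℝ → Fin n ⊕ ℝ := Sum.inr with her
  have mei : MeasurableEmbedding ei := ⟨Sum.inl_injective, measurable_inl, fun _ h => measurableSet_inl_image.2 h⟩
  have mer : MeasurableEmbedding er := ⟨Sum.inr_injective, measurable_inr, fun _ h => measurableSet_inr_image.2 h⟩
  set lam : Measure (Fin n ⊕ ℝ) := (Measure.count).map ei + (volume).map er with hlam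
  set q : Fin n ⊕ ℝ → ℝ := Sum.elim (fun _ => 1) (fun s => - ρ s) with hq
  set p : Fin n ⊕ ℝ → ℝ := Sum.elim t id with hp
  have hpm : Measurable p := Measurable.sumElim (measurable_of_countable _) measurable_id
  haveI : SFinite ((volume : Measure ℝ).map er) := by infer_instance
  have hqi : Integrable q lam := by
    rw [hlam, integrable_add_measure, mei.integrable_map_iff, mer.integrable_map_iff]
    exact ⟨Integrable.of_finite, hρ.neg⟩
  have h1 := RG_psd hpm hqi hG
  have hint : ∀ {F : Fin n ⊕ ℝ → ℝ}, Integrable F lam → ∫ a, F a ∂lam =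
      (∑ i, F (Sum.inl i)) + ∫ s, F (Sum.inr s) := by
    intro F hF
    rw [hlam, integrable_add_measure] at hF
    rw [hlam, integral_add_measure hF.1 hF.2, mei.integral_map, mer.integral_map, integral_count]
  have hF2 : Integrable (fun z : (Fin n ⊕ ℝ) × (Fin n ⊕ ℝ) => q z.1 * q z.2 * RG G (p z.1 - p z.2))
      (lam.prod lam) := by
    refine (hqi.mul_prod hqi).mul_bdd (c := RG G 0) ?_ (Eventually.of_forall fun z => hRb _)
    have : Measurable fun z : (Fin n ⊕ ℝ) × (Fin n ⊕ ℝ) => RG G (p z.1 - p z.2) :=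
      hRm.comp ((hpm.comp measurable_fst).sub (hpm.comp measurable_snd))
    exact this.aestronglyMeasurable
  have hrow : ∀ a : Fin n ⊕ ℝ, Integrable (fun b => q a * q b * RG G (p a - p b)) lam := by
    intro a
    refine (hqi.const_mul (q a)).mul_bdd (c := RG G 0) ?_ (Eventually.of_forall fun z => hRb _)
    have : Measurable fun z : Fin n ⊕ ℝ => RG G (p a - p z) := hRm.comp (measurable_const.sub hpm)
    exact this.aestronglyMeasurable
  have hrowi : Integrable (fun a => ∫ b, q a * q b * RG G (p a - p b) ∂lam) lam := hF2.integral_prod_left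
  rw [integral_prod _ hF2, hint hrowi] at h1
  simp_rw [hint (hrow _)] at h1
  simp only [hq, hp, Sum.elim_inl, Sum.elim_inr, id, one_mul] at h1
  have hc : ∀ x, Integrable fun s => ρ s * RG G (x - s) := by
    intro x
    refine hρ.mul_bdd (c := RG G 0) ?_ (Eventually.of_forall fun z => hRb _)
    have : Measurable fun z : ℝ => RG G (x - z) := hRm.comp (measurable_const.sub measurable_id)
    exact this.aestronglyMeasurable
  have e1 : ∀ x, ∫ s, -ρ s * RG G (x - s) = - ∫ s, ρ s * RG G (x - s) := by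
    intro x
    rw [← integral_neg]
    congr 1
    ext s
    ring
  have e2 : ∀ s, ∫ s', -ρ s * -ρ s' * RG G (s - s') = ρ s * ∫ s', ρ s' * RG G (s - s') := by
    intro s
    rw [← integral_const_mul]
    congr 1
    ext s'
    ring
  have hcc : Integrable fun s => ρ s * ∫ s', ρ s' * RG G (s - s') := by
    refine hρ.mul_bdd (c := (∫ s', |ρ s'|) * RG G 0) ?_ (Eventually.of_forall fun z => ?_)
    · have : StronglyMeasurable fun z : ℝ × ℝ => RG G (z.1 - z.2) := (hRm.comp (by fun_prop)).stronglyMeasurable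
      have h3 : AEStronglyMeasurable (fun z : ℝ × ℝ => ρ z.2 * RG G (z.1 - z.2)) (volume.prod volume) :=
        hρ.aestronglyMeasurable.comp_snd.mul this.aestronglyMeasurable
      exact h3.integral_prod_right'
    · calc ‖∫ s', ρ s' * RG G (z - s')‖ ≤ ∫ s', ‖ρ s' * RG G (z - s')‖ := norm_integral_le_integral_norm _
        _ ≤ ∫ s', |ρ s'| * RG G 0 := by
            refine integral_mono (hc z).norm (hρ.abs.mul_const _) fun s' => ?_
            simp only
            rw [norm_mul, Real.norm_eq_abs]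
            exact mul_le_mul_of_nonneg_left (hRb _) (abs_nonneg _)
        _ = _ := integral_mul_const _ _
  have e3 : ∫ s, ((∑ i, -ρ s * 1 * RG G (s - t i)) + ∫ s', -ρ s * -ρ s' * RG G (s - s')) =
      - (∑ i, (∫ s, ρ s * RG G (t i - s))) + ∫ s, ρ s * ∫ s', ρ s' * RG G (s - s') := by
    simp_rw [e2]
    rw [integral_add ?_ hcc, integral_finsetSum _ fun i _ => ?_]
    · congr 1
      rw [← Finset.sum_neg_distrib]
      refine Finset.sum_congr rfl fun i _ => ?_
      rw [← integral_neg]
      congr 1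
      ext s
      rw [show s - t i = -(t i - s) by ring, RG_neg]
      ring
    · have := (hc (t i)).neg
      refine this.congr (Eventually.of_forall fun s => ?_)
      simp only [Pi.neg_apply]
      rw [show s - t i = -(t i - s) by ring, RG_neg]
      ring
    · refine integrable_finsetSum _ fun i _ => ?_
      have := (hc (t i)).neg
      refine this.congr (Eventually.of_forall fun s => ?_)
      simp only [Pi.neg_apply]
      rw [show s - t i = -(t i - s) by ring, RG_neg]
      ring
  rw [e3] at h1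
  simp_rw [e1] at h1
  rw [Finset.sum_add_distrib, Finset.sum_neg_distrib] at h1
  linarith

lemma V_meas : Measurable V := by
  unfold V w g
  fun_prop

lemma UG_meas (G : ℝ) : Measurable (UG G) := V_meas.sub (RG_meas G)

lemma rhoV_int {ρ : ℝ → ℝ} (hρm : AEStronglyMeasurable ρ) {M : ℝ} (hM : ∀ s, |ρ s| ≤ M) (x : ℝ) :
    Integrable fun s => ρ s * V (x - s) := by
  have h1 : Integrable fun s => V (x - s) := V_integral.1.comp_sub_left x
  exact h1.bdd_mul hρm (Eventually.of_forall fun s => by rw [Real.norm_eq_abs]; exact hM s)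

lemma rhoR_int {ρ : ℝ → ℝ} (hρ : Integrable ρ) {G : ℝ} (hG : 1 ≤ G) (x : ℝ) :
    Integrable fun s => ρ s * RG G (x - s) := by
  refine hρ.mul_bdd (c := RG G 0) ?_ (Eventually.of_forall fun z => ?_)
  · have : Measurable fun z : ℝ => RG G (x - z) := (RG_meas G).comp (measurable_const.sub measurable_id)
    exact this.aestronglyMeasurable
  · rw [Real.norm_eq_abs, abs_of_nonneg (RG_nonneg hG _)]; exact RG_le hG _

lemma rhoU_int {ρ : ℝ → ℝ} (hρ : Integrable ρ) {M : ℝ} (hM : ∀ s, |ρ s| ≤ M) {G : ℝ} (hG : 1 ≤ G)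
    (x : ℝ) : Integrable fun s => ρ s * UG G (x - s) := by
  have := (rhoV_int hρ.aestronglyMeasurable hM x).sub (rhoR_int hρ hG x)
  refine this.congr (Eventually.of_forall fun s => ?_)
  simp only [Pi.sub_apply]
  unfold UG
  ring

/-- **Lemma A** -/
theorem lemA {n : ℕ} (t : Fin n → ℝ) {ρ : ℝ → ℝ} (hρ : Integrable ρ) {M : ℝ} (hM : ∀ s, |ρ s| ≤ M)
    {G : ℝ} (hG : 1 ≤ G) :
    - (∑ i, ∑ j ∈ Finset.Ioi i, V (t i - t j)) + ∑ i, (∫ s, ρ s * V (t i - s)) ≤
    - (∑ i, ∑ j ∈ Finset.Ioi i, UG G (t i - t j)) + ∑ i, (∫ s, ρ s * UG G (t i - s)) +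
      1 / 2 * (∫ s, ρ s * ∫ s', ρ s' * RG G (s - s')) + (n : ℝ) / 2 * RG G 0 := by
  have h1 := pts_psd t hρ hG
  rw [NUE.sum_sum_eq (fun i j => RG G (t i - t j)) (fun i j => by
    rw [show t i - t j = -(t j - t i) by ring, RG_neg])] at h1
  simp only [sub_self, Finset.sum_const, Finset.card_univ, Fintype.card_fin, nsmul_eq_mul] at h1
  have e1 : ∑ i, ∑ j ∈ Finset.Ioi i, UG G (t i - t j) = (∑ i, ∑ j ∈ Finset.Ioi i, V (t i - t j)) -
      ∑ i, ∑ j ∈ Finset.Ioi i, RG G (t i - t j) := by
    unfold UG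
    simp only [Finset.sum_sub_distrib]
  have e2 : ∀ x, ∫ s, ρ s * UG G (x - s) = (∫ s, ρ s * V (x - s)) - ∫ s, ρ s * RG G (x - s) := by
    intro x
    rw [← integral_sub (rhoV_int hρ.aestronglyMeasurable hM x) (rhoR_int hρ hG x)]
    congr 1
    ext s
    unfold UG
    ring
  rw [e1]
  simp_rw [e2]
  rw [Finset.sum_sub_distrib]
  linarith

/-- the pair function -/
def om (t : ℝ) : ℝ := w t * g t

lemma om_nonneg (t : ℝ) : 0 ≤ om t := by
  unfold om
  rcases eq_or_ne t 0 with rfl | h
  · unfold w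
    simp
  · exact (mul_pos (w_pos h) (g_pos t)).le

lemma om_le (t : ℝ) : om t ≤ Real.exp (- V t) := by
  rcases eq_or_ne t 0 with rfl | h
  · unfold om w
    simp [Real.exp_nonneg]
  · unfold om V
    rw [neg_neg, Real.exp_log (mul_pos (w_pos h) (g_pos t))]

lemma om_meas : Measurable om := by
  unfold om w g
  fun_prop

end

end NUWC
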