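import Pool.Agent.NUWC.Data

/-!
# Energy identity on the circle
-/

set_option autoImplicit false

open MeasureTheory Set Filter Topology Pool.Agent.Szego62

namespace NUWC

open NUMF

noncomputable section

/-- symbol of the compact kernel -/
def uk (G κ : ℝ) : ℝ := ∫ x, UG G x * Real.cos (κ * x)

/-- frequency -/
def kp (L : ℝ) (k : ℕ) : ℝ := 2 * Real.pi * k / L

lemma uk_eq {G : ℝ} (hG : 1 ≤ G) {L : ℝ} (hL : 2 * G ≤ L) (κ : ℝ) :
    uk G κ = ∫ x in (-(L / 2))..(L / 2), UG G x * Real.cos (κ * x) := by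
  unfold uk
  rw [intervalIntegral.integral_of_le (by linarith)]
  refine (setIntegral_eq_integral_of_forall_compl_eq_zero fun x hx => ?_).symm
  have : G ≤ |x| := by
    by_contra h
    push Not at h
    rw [abs_lt] at h
    exact hx ⟨by linarith, by linarith⟩
  rw [UG_out hG this, zero_mul]

lemma fc_UP {G : ℝ} (hG : 1 ≤ G) {L : ℝ} (hL : 2 * G ≤ L) (k : ℕ) :
    fc L (UP G L) k = ((uk G (kp L k) / L : ℝ) : ℂ) := by
  have hL0 : 0 < L := by linarith
  rw [fc_congr hL0 (UP_ae hL0)]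
  unfold fc
  rw [uk_eq hG hL]
  have hle : -(L / 2) ≤ L / 2 := by linarith
  have hint : IntervalIntegrable (fun x => Complex.exp (-((2 * Real.pi * ((k : ℤ) : ℝ) / L * x : ℝ) : ℂ) * Complex.I) *
      (UG G x : ℂ)) volume (-(L / 2)) (L / 2) := by
    have h1 := (UG_intv hG hL0)
    rw [intervalIntegrable_iff_integrableOn_Ioc_of_le hle] at h1 ⊢
    refine (h1.ofReal (𝕜 := ℂ)).bdd_mul (c := 1) (Continuous.aestronglyMeasurable (by fun_prop))
      (Eventually.of_forall fun x => ?_)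
    rw [← Complex.ofReal_neg, Complex.norm_exp_ofReal_mul_I]
  -- the integral is real by symmetry
  have hsym : (∫ x in (-(L / 2))..(L / 2), Complex.exp (-((2 * Real.pi * ((k : ℤ) : ℝ) / L * x : ℝ) : ℂ) * Complex.I) *
      (UG G x : ℂ)) = ∫ x in (-(L / 2))..(L / 2), Complex.exp (((2 * Real.pi * ((k : ℤ) : ℝ) / L * x : ℝ) : ℂ) * Complex.I) *
      (UG G x : ℂ) := by
    have := intervalIntegral.integral_comp_neg (a := -(L / 2)) (b := L / 2)
      (fun x => Complex.exp (((2 * Real.pi * ((k : ℤ) : ℝ) / L * x : ℝ) : ℂ) * Complex.I) * (UG G x : ℂ))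
    rw [neg_neg] at this
    rw [← this]
    refine intervalIntegral.integral_congr fun x _ => ?_
    rw [UG_neg, mul_neg, Complex.ofReal_neg]
  have hint' : IntervalIntegrable (fun x => Complex.exp (((2 * Real.pi * ((k : ℤ) : ℝ) / L * x : ℝ) : ℂ) * Complex.I) *
      (UG G x : ℂ)) volume (-(L / 2)) (L / 2) := by
    have h1 := (UG_intv hG hL0)
    rw [intervalIntegrable_iff_integrableOn_Ioc_of_le hle] at h1 ⊢
    refine (h1.ofReal (𝕜 := ℂ)).bdd_mul (c := 1) (Continuous.aestronglyMeasurable (by fun_prop))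
      (Eventually.of_forall fun x => ?_)
    rw [Complex.norm_exp_ofReal_mul_I]
  have h2 : (∫ x in (-(L / 2))..(L / 2), Complex.exp (-((2 * Real.pi * ((k : ℤ) : ℝ) / L * x : ℝ) : ℂ) * Complex.I) *
      (UG G x : ℂ)) = ((∫ x in (-(L / 2))..(L / 2), UG G x * Real.cos (kp L k * x) : ℝ) : ℂ) := by
    have h3 : (2:ℂ) * (∫ x in (-(L / 2))..(L / 2), Complex.exp (-((2 * Real.pi * ((k : ℤ) : ℝ) / L * x : ℝ) : ℂ) * Complex.I) *
      (UG G x : ℂ)) = 2 * ((∫ x in (-(L / 2))..(L / 2), UG G x * Real.cos (kp L k * x) : ℝ) : ℂ) := by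
      rw [two_mul]
      nth_rewrite 2 [hsym]
      rw [← intervalIntegral.integral_add hint hint', ← intervalIntegral.integral_ofReal,
        ← intervalIntegral.integral_const_mul]
      refine intervalIntegral.integral_congr fun x _ => ?_
      unfold kp
      push_cast
      rw [Complex.cos]
      ring_nf
    exact mul_left_cancel₀ two_ne_zero h3
  rw [h2]
  push_cast
  ring

/-- termwise integration -/
lemma int_Aser {L : ℝ} (hL : 0 < L) {ρ : ℝ → ℝ} (hρ : Continuous ρ) {c : ℕ → ℂ}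
    (hc : Summable fun k => ‖c k‖) :
    HasSum (fun k : ℕ => 2 * L * (c k * (starRingEnd ℂ) (fc L ρ (k + 1))).re)
      (∫ t in (-(L / 2))..(L / 2), ρ t * Aser c (2 * Real.pi * t / L)) := by
  have hle : -(L / 2) ≤ L / 2 := by linarith
  have hρi : IntegrableOn ρ (Ioc (-(L / 2)) (L / 2)) := hρ.integrableOn_Ioc
  set F : ℕ → ℝ → ℝ := fun k t => ρ t * (2 * (c k * Complex.exp ((k + 1 : ℂ) * ((2 * Real.pi * t / L : ℝ) : ℂ) * Complex.I)).re) with hF
  have hFc : ∀ k, Continuous (F k) := by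
    intro k
    rw [hF]
    simp only
    have : Continuous fun t : ℝ => (c k * Complex.exp ((k + 1 : ℂ) * ((2 * Real.pi * t / L : ℝ) : ℂ) * Complex.I)).re := by
      refine Complex.continuous_re.comp ?_
      fun_prop
    fun_prop
  have hFi : ∀ k, IntegrableOn (F k) (Ioc (-(L / 2)) (L / 2)) := fun k => (hFc k).integrableOn_Ioc
  have hFn : ∀ k t, ‖F k t‖ ≤ 2 * ‖c k‖ * |ρ t| := by
    intro k t
    rw [hF]
    simp only
    rw [norm_mul, Real.norm_eq_abs, Real.norm_eq_abs]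
    have := abs_term_c c k (2 * Real.pi * t / L)
    calc _ ≤ |ρ t| * (2 * ‖c k‖) := by gcongr
      _ = _ := by ring
  have h1 := hasSum_integral_of_summable_integral_norm (μ := volume.restrict (Ioc (-(L / 2)) (L / 2))) hFi (by
    refine Summable.of_nonneg_of_le (fun k => integral_nonneg fun t => norm_nonneg _) (fun k => ?_)
      (hc.mul_left (2 * ∫ t in Ioc (-(L / 2)) (L / 2), |ρ t|))
    calc ∫ t in Ioc (-(L / 2)) (L / 2), ‖F k t‖ ≤ ∫ t in Ioc (-(L / 2)) (L / 2), 2 * ‖c k‖ * |ρ t| :=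
          integral_mono (hFi k).norm (hρi.abs.const_mul _) (hFn k)
      _ = _ := by rw [integral_const_mul]; ring)
  have h2 : ∫ t in Ioc (-(L / 2)) (L / 2), ∑' k, F k t =
      ∫ t in (-(L / 2))..(L / 2), ρ t * Aser c (2 * Real.pi * t / L) := by
    rw [intervalIntegral.integral_of_le hle]
    refine integral_congr_ae (Eventually.of_forall fun t => ?_)
    simp only [hF]
    rw [tsum_mul_left]
    rfl
  rw [h2] at h1
  have h3 : (fun k => ∫ t in Ioc (-(L / 2)) (L / 2), F k t) =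
      fun k : ℕ => 2 * L * (c k * (starRingEnd ℂ) (fc L ρ (k + 1))).re := by
    funext k
    have e1 : (starRingEnd ℂ) (fc L ρ (k + 1)) = ((1 / L : ℝ) : ℂ) * ∫ t in Ioc (-(L / 2)) (L / 2),
        Complex.exp ((k + 1 : ℂ) * ((2 * Real.pi * t / L : ℝ) : ℂ) * Complex.I) * (ρ t : ℂ) := by
      rw [← fc_neg]
      unfold fc
      rw [intervalIntegral.integral_of_le hle]
      congr 1
      refine integral_congr_ae (Eventually.of_forall fun t => ?_)
      simp only
      congr 2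
      push_cast
      ring
    have hci : IntegrableOn (fun t => Complex.exp ((k + 1 : ℂ) * ((2 * Real.pi * t / L : ℝ) : ℂ) * Complex.I) * (ρ t : ℂ))
        (Ioc (-(L / 2)) (L / 2)) := by
      refine Continuous.integrableOn_Ioc ?_
      fun_prop
    have e2 : ∫ t in Ioc (-(L / 2)) (L / 2), F k t = 2 * (c k * ∫ t in Ioc (-(L / 2)) (L / 2),
        Complex.exp ((k + 1 : ℂ) * ((2 * Real.pi * t / L : ℝ) : ℂ) * Complex.I) * (ρ t : ℂ)).re := by
      rw [← integral_const_mul]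
      have e3 := (Complex.reCLM).integral_comp_comm (hci.const_mul (c k))
      simp only [Complex.reCLM_apply] at e3
      rw [← e3, ← integral_const_mul]
      refine integral_congr_ae (Eventually.of_forall fun t => ?_)
      simp only [hF]
      have e4 : c k * (Complex.exp ((k + 1 : ℂ) * ((2 * Real.pi * t / L : ℝ) : ℂ) * Complex.I) * (ρ t : ℂ)) =
          (ρ t : ℂ) * (c k * Complex.exp ((k + 1 : ℂ) * ((2 * Real.pi * t / L : ℝ) : ℂ) * Complex.I)) := by ring
      rw [e4, Complex.re_ofReal_mul]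
      ring
    rw [e2, e1]
    have hLc : L * (1 / L) = 1 := by field_simp
    rw [mul_left_comm, Complex.re_ofReal_mul]
    linear_combination (-2 * (c k * ∫ t in Ioc (-(L / 2)) (L / 2),
        Complex.exp ((k + 1 : ℂ) * ((2 * Real.pi * t / L : ℝ) : ℂ) * Complex.I) * (ρ t : ℂ)).re) * hLc
  rw [h3] at h1
  exact h1

lemma cconv_series {G : ℝ} (hG : 1 ≤ G) {L : ℝ} (hL : 2 * G ≤ L) {ρ : ℝ → ℝ} (hρ : Continuous ρ) :
    Summable (fun k : ℕ => ‖(uk G (kp L (k + 1)) : ℂ) * fc L ρ (k + 1)‖) ∧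
    ∀ t, cconv L ρ (UP G L) t = uk G 0 / L * (∫ s in (-(L / 2))..(L / 2), ρ s) +
      Aser (fun k => (uk G (kp L (k + 1)) : ℂ) * fc L ρ (k + 1)) (2 * Real.pi * t / L) := by
  have hL0 : 0 < L := by linarith
  have hmem : MemLp (UP G L) 2 (volume.restrict (Ioc (-(L / 2)) (L / 2))) := by
    refine (memLp_congr_ae ?_).1 (UG_memLp hG hL0)
    filter_upwards [ae_restrict_mem measurableSet_Ioc] with x hx
    exact (UP_ae hL0 x (Ioc_subset_Icc_self hx)).symm
  have hs := fc_prod_summable hL0 (cont_memLp (L := L) hρ) hmem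
  have hk : ∀ k : ℕ, fc L (UP G L) ((k : ℤ) + 1) = ((uk G (kp L (k + 1)) / L : ℝ) : ℂ) := by
    intro k
    have := fc_UP hG hL (k + 1)
    push_cast at this ⊢
    convert this using 3
  have hLc : (L : ℂ) ≠ 0 := by exact_mod_cast hL0.ne'
  have hc : ∀ k : ℕ, (L : ℂ) * fc L ρ ((k : ℤ) + 1) * fc L (UP G L) ((k : ℤ) + 1) =
      (uk G (kp L (k + 1)) : ℂ) * fc L ρ (k + 1) := by
    intro k
    rw [hk]
    push_cast
    field_simp
  constructor
  · refine (hs.mul_left L).congr fun k => ?_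
    rw [← hc, norm_mul, norm_mul, Complex.norm_real, Real.norm_eq_abs, abs_of_pos hL0, mul_assoc]
  · intro t
    have h := conv_series hL0 (UP_meas G L) (UP_periodic G hL0) (UP_intv hG hL0) hρ hs t
    rw [h]
    congr 1
    · have h0 := fc_UP hG hL 0
      rw [Nat.cast_zero] at h0
      have hk0 : kp L 0 = 0 := by unfold kp; simp
      rw [h0, hk0]
      have h1 : fc L ρ 0 = ((1 / L * ∫ s in (-(L / 2))..(L / 2), ρ s : ℝ) : ℂ) := by
        unfold fc
        push_cast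
        rw [← intervalIntegral.integral_ofReal]
        simp
      rw [h1, ← Complex.ofReal_mul, ← Complex.ofReal_mul, Complex.ofReal_re]
      field_simp
    · congr 1
      funext k
      exact hc k

lemma energy_pt {L u : ℝ} (hk : u ≠ 0) (r z : ℂ) : L * ‖(u : ℂ) * r + z‖ ^ 2 / u =
    1 / 2 * (2 * L * ((u : ℂ) * r * (starRingEnd ℂ) r).re) + 2 * L * (z * (starRingEnd ℂ) r).re + L * ‖z‖ ^ 2 / u := by
  have n1 : ‖(u : ℂ) * r + z‖ ^ 2 = u ^ 2 * ‖r‖ ^ 2 + ‖z‖ ^ 2 + 2 * u * (z * (starRingEnd ℂ) r).re := by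
    rw [← Complex.normSq_eq_norm_sq, Complex.normSq_add, Complex.normSq_mul, Complex.normSq_ofReal,
      Complex.normSq_eq_norm_sq, Complex.normSq_eq_norm_sq, mul_assoc (u : ℂ), Complex.re_ofReal_mul]
    have : (r * (starRingEnd ℂ) z).re = (z * (starRingEnd ℂ) r).re := by
      simp only [Complex.mul_re, Complex.conj_re, Complex.conj_im]
      ring
    rw [this]
    ring
  have n2 : ((u : ℂ) * r * (starRingEnd ℂ) r).re = u * ‖r‖ ^ 2 := by
    rw [mul_assoc, Complex.re_ofReal_mul, Complex.mul_conj, Complex.ofReal_re, Complex.normSq_eq_norm_sq]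
  rw [n1, n2]
  field_simp
  ring

/-- **Energy identity**: `ρ` continuous, extra potential `f0 + Aser f`. -/
theorem energy {G : ℝ} (hG : 1 ≤ G) {L : ℝ} (hL : 2 * G ≤ L) {ρ : ℝ → ℝ} (hρ : Continuous ρ)
    (hu : ∀ k : ℕ, uk G (kp L (k + 1)) ≠ 0) (f0 : ℝ) {f : ℕ → ℂ} (hf : Summable fun k => ‖f k‖)
    (hfe : Summable fun k : ℕ => L * ‖f k‖ ^ 2 / uk G (kp L (k + 1))) :
    HasSum (fun k : ℕ => L * ‖(uk G (kp L (k + 1)) : ℂ) * fc L ρ (k + 1) + f k‖ ^ 2 / uk G (kp L (k + 1)))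
      (1 / 2 * (∫ t in (-(L / 2))..(L / 2), ρ t * cconv L ρ (UP G L) t) -
        uk G 0 / (2 * L) * (∫ t in (-(L / 2))..(L / 2), ρ t) ^ 2 +
        (∫ t in (-(L / 2))..(L / 2), ρ t * (f0 + Aser f (2 * Real.pi * t / L))) -
        f0 * (∫ t in (-(L / 2))..(L / 2), ρ t) +
        ∑' k : ℕ, L * ‖f k‖ ^ 2 / uk G (kp L (k + 1))) := by
  have hL0 : 0 < L := by linarith
  obtain ⟨hc, hA⟩ := cconv_series hG hL hρ
  have h1 := int_Aser hL0 hρ hc
  have h2 := int_Aser hL0 hρ hf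
  have hcont : ∀ {c : ℕ → ℂ}, (Summable fun k => ‖c k‖) → Continuous fun t : ℝ => Aser c (2 * Real.pi * t / L) := by
    intro c hc
    unfold Aser
    refine continuous_tsum (u := fun k => 2 * ‖c k‖) ?_ (hc.mul_left 2) ?_
    · intro k
      have : Continuous fun t : ℝ => (c k * Complex.exp ((k + 1 : ℂ) * ((2 * Real.pi * t / L : ℝ) : ℂ) * Complex.I)).re := by
        refine Complex.continuous_re.comp ?_
        fun_prop
      fun_prop
    · intro k t
      rw [Real.norm_eq_abs]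
      exact abs_term_c c k _
  have gen : ∀ (C : ℝ) (g : ℝ → ℝ), Continuous g → ∫ t in (-(L / 2))..(L / 2), ρ t * (C + g t) =
      C * (∫ t in (-(L / 2))..(L / 2), ρ t) + ∫ t in (-(L / 2))..(L / 2), ρ t * g t := by
    intro C g hg
    rw [← intervalIntegral.integral_const_mul, ← intervalIntegral.integral_add]
    · refine intervalIntegral.integral_congr fun t _ => ?_
      ring
    · exact Continuous.intervalIntegrable (by fun_prop) _ _
    · exact Continuous.intervalIntegrable (by fun_prop) _ _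
  have e1 : ∫ t in (-(L / 2))..(L / 2), ρ t * cconv L ρ (UP G L) t =
      uk G 0 / L * (∫ s in (-(L / 2))..(L / 2), ρ s) ^ 2 +
      ∫ t in (-(L / 2))..(L / 2), ρ t * Aser (fun k => (uk G (kp L (k + 1)) : ℂ) * fc L ρ (k + 1)) (2 * Real.pi * t / L) := by
    simp_rw [hA]
    rw [gen _ _ (hcont hc)]
    ring
  have e2 : ∫ t in (-(L / 2))..(L / 2), ρ t * (f0 + Aser f (2 * Real.pi * t / L)) =
      f0 * (∫ t in (-(L / 2))..(L / 2), ρ t) + ∫ t in (-(L / 2))..(L / 2), ρ t * Aser f (2 * Real.pi * t / L) :=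
    gen _ _ (hcont hf)
  have h3 := ((h1.mul_left (1 / 2)).add h2).add hfe.hasSum
  have e3 : 1 / 2 * (∫ t in (-(L / 2))..(L / 2), ρ t * cconv L ρ (UP G L) t) -
        uk G 0 / (2 * L) * (∫ t in (-(L / 2))..(L / 2), ρ t) ^ 2 +
        (∫ t in (-(L / 2))..(L / 2), ρ t * (f0 + Aser f (2 * Real.pi * t / L))) -
        f0 * (∫ t in (-(L / 2))..(L / 2), ρ t) +
        ∑' k : ℕ, L * ‖f k‖ ^ 2 / uk G (kp L (k + 1)) =
      1 / 2 * (∫ t in (-(L / 2))..(L / 2), ρ t * Aser (fun k => (uk G (kp L (k + 1)) : ℂ) * fc L ρ (k + 1)) (2 * Real.pi * t / L)) +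
      (∫ t in (-(L / 2))..(L / 2), ρ t * Aser f (2 * Real.pi * t / L)) +
        ∑' k : ℕ, L * ‖f k‖ ^ 2 / uk G (kp L (k + 1)) := by
    rw [e1, e2]
    field_simp
    ring
  rw [e3]
  have hfun : (fun k : ℕ => L * ‖(uk G (kp L (k + 1)) : ℂ) * fc L ρ (k + 1) + f k‖ ^ 2 / uk G (kp L (k + 1))) =
      fun b : ℕ => 1 / 2 * (2 * L * ((uk G (kp L (b + 1)) : ℂ) * fc L ρ (b + 1) * (starRingEnd ℂ) (fc L ρ (b + 1))).re) +
          2 * L * (f b * (starRingEnd ℂ) (fc L ρ (b + 1))).re +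
        L * ‖f b‖ ^ 2 / uk G (kp L (b + 1)) := by
    funext k
    exact energy_pt (hu k) _ _
  rw [hfun]
  exact h3

end

end NUWC
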