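import Pool.Agent.NUWC.Conv

/-!
# Tent mixture

`RG G s = ∫_{x > G} V''(x) (x - |s|)₊ dx` equals `V s` for `|s| ≥ G`; it is positive definite
(`psd`).
-/

set_option autoImplicit false

open MeasureTheory Set Filter Topology

namespace NUWC

open NUMF

noncomputable section

lemma C_ge {x : ℝ} : Real.exp (2 * x) / 2 ≤ Real.cosh (2 * x) := by
  rw [Real.cosh_eq]
  have := Real.exp_pos (-(2 * x))
  linarith

lemma two_le_C {x : ℝ} (hx : 1 ≤ x) : 2 ≤ Real.cosh (2 * x) := by
  have h1 := C_ge (x := x)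
  have h2 : (1:ℝ) + 1 ≤ Real.exp 1 := Real.add_one_le_exp 1
  have h3 : Real.exp (2 * 1) ≤ Real.exp (2 * x) := Real.exp_le_exp.2 (by linarith)
  have h4 : Real.exp (2 * 1) = Real.exp 1 * Real.exp 1 := by rw [← Real.exp_add]; norm_num
  nlinarith

lemma inv_C_le {x : ℝ} : 1 / Real.cosh (2 * x) ≤ 2 * Real.exp (-(2 * x)) := by
  have h1 := C_ge (x := x)
  have h0 := Real.exp_pos (2 * x)
  rw [Real.exp_neg, div_le_iff₀ (Real.cosh_pos _)]
  have : 2 * (Real.exp (2 * x))⁻¹ * (Real.exp (2 * x) / 2) ≤ 2 * (Real.exp (2 * x))⁻¹ * Real.cosh (2 * x) := by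
    gcongr
  have e : 2 * (Real.exp (2 * x))⁻¹ * (Real.exp (2 * x) / 2) = 1 := by
    field_simp
  linarith

lemma hd2_le {x : ℝ} (hx : 1 ≤ x) (y : ℝ) : |hd2 x y| ≤ 48 * Real.exp (-(2 * x)) := by
  have h1 := two_le_C hx
  have h2 := inv_C_le (x := x)
  have h3 := Real.neg_one_le_cos (2 * y)
  have h4 := Real.cos_le_one (2 * y)
  unfold hd2
  generalize Real.cosh (2 * x) = C at h1 h2
  generalize Real.cos (2 * y) = c at h3 h4
  have hden : C / 2 ≤ C + c := by linarith
  have hnum : |4 * (1 + C * c)| ≤ 6 * C := by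
    rw [abs_le]; constructor <;> nlinarith
  have hp : 0 < C + c := by linarith
  rw [abs_div, abs_of_pos (pow_pos hp 2), div_le_iff₀ (pow_pos hp 2)]
  have h5 : C ^ 2 / 4 ≤ (C + c) ^ 2 := by nlinarith
  have h6 : (1 / C) * C = 1 := by field_simp
  calc |4 * (1 + C * c)| ≤ 6 * C := hnum
    _ = 24 * (1 / C) * (C ^ 2 / 4) := by field_simp; ring
    _ ≤ 24 * (2 * Real.exp (-(2 * x))) * (C + c) ^ 2 := by gcongr
    _ = _ := by ring

lemma hd1_le {x : ℝ} (hx : 1 ≤ x) (y : ℝ) : |hd1 x y - 2| ≤ 16 * Real.exp (-(2 * x)) := by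
  have h1 := two_le_C hx
  have h2 := inv_C_le (x := x)
  have h3 := Real.neg_one_le_cos (2 * y)
  have h4 := Real.cos_le_one (2 * y)
  have h7 : Real.cosh (2 * x) - Real.sinh (2 * x) = Real.exp (-(2 * x)) := Real.cosh_sub_sinh _
  have h8 : Real.exp (-(2 * x)) ≤ 1 := Real.exp_le_one_iff.2 (by linarith)
  have h9 := Real.exp_pos (-(2 * x))
  unfold hd1
  generalize Real.cosh (2 * x) = C at h1 h2 h7
  generalize Real.cos (2 * y) = c at h3 h4
  generalize Real.sinh (2 * x) = S at h7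
  generalize Real.exp (-(2 * x)) = e at h2 h7 h8 h9
  have hp : 0 < C + c := by linarith
  have e1 : 2 * S / (C + c) - 2 = (-2 * e - 2 * c) / (C + c) := by
    rw [← h7]
    field_simp
    ring
  rw [e1, abs_div, abs_of_pos hp, div_le_iff₀ hp]
  have hnum : |-2 * e - 2 * c| ≤ 4 := by
    rw [abs_le]; constructor <;> linarith
  have hC0 : (0:ℝ) < C := by linarith
  rw [div_le_iff₀ hC0] at h2
  nlinarith

lemma V2_abs_le {x : ℝ} (hx : 1 ≤ x) : |V2 x| ≤ 288 * Real.exp (-(2 * x)) := by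
  have a1 := abs_le.1 (hd2_le hx l)
  have a2 := abs_le.1 (hd2_le hx (3 * l))
  have a3 := abs_le.1 (hd2_le hx (4 * l))
  have a4 := abs_le.1 (hd2_le hx (2 * l))
  have a5 := abs_le.1 (hd2_le hx 0)
  unfold V2
  rw [abs_le]
  constructor <;> linarith

lemma V1_abs_le {x : ℝ} (hx : 1 ≤ x) : |V1 x| ≤ 96 * Real.exp (-(2 * x)) := by
  have a1 := abs_le.1 (hd1_le hx l)
  have a2 := abs_le.1 (hd1_le hx (3 * l))
  have a3 := abs_le.1 (hd1_le hx (4 * l))
  have a4 := abs_le.1 (hd1_le hx (2 * l))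
  have a5 := abs_le.1 (hd1_le hx 0)
  unfold V1
  rw [abs_le]
  constructor <;> linarith

lemma V_abs_le_mell {x : ℝ} (hx : x ≠ 0) : |V x| ≤ 6 * mell (2 * |x|) := by
  have hx' : 0 < 2 * |x| := by have := abs_pos.2 hx; positivity
  have hV : V x = 2 * h x l + h x (3 * l) - h x (4 * l) - h x (2 * l) - h x 0 := by
    rw [V_eq hx, log_w hx, log_g]
    rw [show 3 * l + l = 4 * l by ring, show 3 * l - l = 2 * l by ring, zero_add, zero_sub, h_neg_right]
    ring
  rw [hV, h_eq_ell hx, h_eq_ell hx, h_eq_ell hx, h_eq_ell hx, h_eq_ell hx]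
  have a1 := abs_le.1 (abs_ell_le (2 * l) hx')
  have a2 := abs_le.1 (abs_ell_le (2 * (3 * l)) hx')
  have a3 := abs_le.1 (abs_ell_le (2 * (4 * l)) hx')
  have a4 := abs_le.1 (abs_ell_le (2 * (2 * l)) hx')
  have a5 := abs_le.1 (abs_ell_le (2 * 0) hx')
  rw [abs_le]
  constructor <;> linarith

lemma mell_exp_le {x : ℝ} (hx : 1 ≤ x) : mell (2 * x) ≤ 4 * Real.exp (-(2 * x)) := by
  unfold mell
  set q := Real.exp (-(2 * x)) with hq
  have h0 : 0 < q := Real.exp_pos _
  have h1 : q ≤ 1 / 2 := by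
    have h2 : (2:ℝ) ≤ Real.exp (2 * x) := by
      have := Real.add_one_le_exp (2 * x)
      linarith
    rw [hq, Real.exp_neg, inv_eq_one_div]
    exact one_div_le_one_div_of_le (by norm_num) h2
  have h2 : 0 < 1 - q := by linarith
  have h3 : 1 - (1 - q)⁻¹ ≤ Real.log (1 - q) := Real.one_sub_inv_le_log_of_pos h2
  have h4 : (1 - q)⁻¹ ≤ 1 + 2 * q := by
    rw [inv_eq_one_div, div_le_iff₀ h2]
    nlinarith
  linarith

lemma V_abs_le {x : ℝ} (hx : 1 ≤ x) : |V x| ≤ 24 * Real.exp (-(2 * x)) := by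
  have h1 := V_abs_le_mell (x := x) (by linarith)
  rw [abs_of_pos (by linarith : 0 < x)] at h1
  have h2 := mell_exp_le hx
  linarith

lemma V_neg (x : ℝ) : V (-x) = V x := by
  unfold V w g
  rw [Real.sinh_neg, mul_neg, Real.cosh_neg, Real.cosh_neg, neg_sq]

lemma V_abs (x : ℝ) : V |x| = V x := by
  rcases abs_cases x with ⟨h, _⟩ | ⟨h, _⟩ <;> rw [h]
  exact V_neg x

lemma tendsto_exp2 : Tendsto (fun x : ℝ => Real.exp (-(2 * x))) atTop (𝓝 0) := by
  have h1 : Tendsto (fun x : ℝ => 2 * x) atTop atTop := tendsto_id.const_mul_atTop (by norm_num)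
  exact Real.tendsto_exp_neg_atTop_nhds_zero.comp h1

lemma x_exp_le {x : ℝ} (hx : 0 ≤ x) : x * Real.exp (-(2 * x)) ≤ Real.exp (-x) := by
  have h1 := Real.add_one_le_exp x
  have h2 : Real.exp (-(2 * x)) = Real.exp (-x) * Real.exp (-x) := by rw [← Real.exp_add]; congr 1; ring
  have h3 : Real.exp x * Real.exp (-x) = 1 := by rw [← Real.exp_add]; simp
  have h4 := Real.exp_pos (-x)
  rw [h2]
  calc x * (Real.exp (-x) * Real.exp (-x)) ≤ Real.exp x * (Real.exp (-x) * Real.exp (-x)) := by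
        gcongr
        linarith
    _ = Real.exp x * Real.exp (-x) * Real.exp (-x) := by ring
    _ = Real.exp (-x) := by rw [h3, one_mul]

lemma xx_exp_le {x : ℝ} (hx : 0 ≤ x) : x ^ 2 * Real.exp (-(2 * x)) ≤ 2 * Real.exp (-x) := by
  have h1 := Real.quadratic_le_exp_of_nonneg hx
  have h2 : Real.exp (-(2 * x)) = Real.exp (-x) * Real.exp (-x) := by rw [← Real.exp_add]; congr 1; ring
  have h3 : Real.exp x * Real.exp (-x) = 1 := by rw [← Real.exp_add]; simp
  have h4 := Real.exp_pos (-x)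
  rw [h2]
  calc x ^ 2 * (Real.exp (-x) * Real.exp (-x)) ≤ (2 * Real.exp x) * (Real.exp (-x) * Real.exp (-x)) := by
        gcongr
        linarith
    _ = 2 * (Real.exp x * Real.exp (-x)) * Real.exp (-x) := by ring
    _ = 2 * Real.exp (-x) := by rw [h3]; ring

lemma V1_cont : ContinuousOn V1 (Ioi 0) := fun _ hx => (hasDerivAt_V1 hx).continuousAt.continuousWithinAt

lemma V2_cont : ContinuousOn V2 (Ioi 0) := by
  have h1 : ∀ y, ContinuousOn (fun x => hd2 x y) (Ioi 0) := by
    intro y x hx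
    unfold hd2
    have := (arg_pos hx y).ne'
    refine ContinuousAt.continuousWithinAt ?_
    exact ContinuousAt.div (by fun_prop) (by fun_prop) (pow_ne_zero 2 this)
  exact ((((h1 l).const_smul (2:ℝ)).add (h1 _)).sub (h1 _)).sub (h1 _) |>.sub (h1 _)

lemma V2_meas : Measurable V2 := by
  unfold V2 hd2
  fun_prop

/-- integrability of `V'' x ^ 2` on `(G, ∞)` -/
lemma V2_int {G : ℝ} (hG : 1 ≤ G) : IntegrableOn (fun x => V2 x * (1 + x + x ^ 2)) (Ioi G) := by
  have h0 : IntegrableOn (fun x : ℝ => 1440 * Real.exp (-1 * x)) (Ioi G) :=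
    (integrableOn_exp_mul_Ioi (by norm_num) G).const_mul _
  refine Integrable.mono' h0 (V2_meas.mul (by fun_prop)).aestronglyMeasurable ?_
  filter_upwards [ae_restrict_mem measurableSet_Ioi] with x hx
  have hx1 : 1 ≤ x := hG.trans (le_of_lt hx)
  have hx0 : 0 ≤ x := by linarith
  have h1 := V2_abs_le hx1
  have h2 := x_exp_le hx0
  have h3 := xx_exp_le hx0
  have h4 : Real.exp (-(2 * x)) ≤ Real.exp (-x) := Real.exp_le_exp.2 (by linarith)
  have h5 := Real.exp_pos (-x)
  rw [norm_mul, Real.norm_eq_abs, Real.norm_eq_abs, abs_of_nonneg (by positivity : 0 ≤ 1 + x + x ^ 2)]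
  rw [show -1 * x = -x by ring]
  calc |V2 x| * (1 + x + x ^ 2) ≤ 288 * Real.exp (-(2 * x)) * (1 + x + x ^ 2) := by gcongr
    _ = 288 * (Real.exp (-(2 * x)) + x * Real.exp (-(2 * x)) + x ^ 2 * Real.exp (-(2 * x))) := by ring
    _ ≤ 288 * (Real.exp (-x) + Real.exp (-x) + 2 * Real.exp (-x)) := by gcongr
    _ ≤ _ := by linarith

/-- the positive definite tail -/
def RG (G s : ℝ) : ℝ := ∫ x in Ioi G, V2 x * max (x - |s|) 0

lemma RG_int {G : ℝ} (hG : 1 ≤ G) (s : ℝ) : IntegrableOn (fun x => V2 x * max (x - |s|) 0) (Ioi G) := by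
  refine Integrable.mono' (V2_int hG) (V2_meas.mul (by fun_prop)).aestronglyMeasurable ?_
  filter_upwards [ae_restrict_mem measurableSet_Ioi] with x hx
  have hx1 : 1 ≤ x := hG.trans (le_of_lt hx)
  have h1 := V2_pos (by linarith : 0 < x)
  have h2 : max (x - |s|) 0 ≤ 1 + x + x ^ 2 := by
    refine max_le ?_ (by positivity)
    have := abs_nonneg s
    nlinarith
  rw [norm_mul, Real.norm_eq_abs, Real.norm_eq_abs, abs_of_pos h1,
    abs_of_nonneg (le_max_right _ _)]
  gcongr

lemma int_sub {a c : ℝ} (ha : 1 ≤ a) : IntegrableOn (fun x => V2 x * (x - c)) (Ioi a) := by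
  refine Integrable.mono' ((V2_int ha).const_mul (1 + |c|)) (V2_meas.mul (by fun_prop)).aestronglyMeasurable ?_
  filter_upwards [ae_restrict_mem measurableSet_Ioi] with x hx
  have hx1 : 1 ≤ x := ha.trans (le_of_lt hx)
  have h1 := V2_pos (by linarith : 0 < x)
  have h2 : |x - c| ≤ (1 + |c|) * (1 + x + x ^ 2) := by
    have h3 := abs_sub x c
    rw [abs_of_pos (by linarith : 0 < x)] at h3
    have h4 := abs_nonneg c
    nlinarith
  rw [norm_mul, Real.norm_eq_abs, Real.norm_eq_abs, abs_of_pos h1]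
  calc V2 x * |x - c| ≤ V2 x * ((1 + |c|) * (1 + x + x ^ 2)) := by gcongr
    _ = _ := by ring

/-- `∫_{x > a} V'' (x - c) = V a - V' a (a - c)` -/
lemma integral_sub' {a c : ℝ} (ha : 1 ≤ a) : ∫ x in Ioi a, V2 x * (x - c) = V a - V1 a * (a - c) := by
  have ha0 : 0 < a := by linarith
  have h1 : ∀ x ∈ Ioi a, HasDerivAt (fun x => V1 x * (x - c) - V x) (V2 x * (x - c)) x := by
    intro x hx
    have hx0 : 0 < x := ha0.trans hx
    have := ((hasDerivAt_V1 hx0).mul ((hasDerivAt_id x).sub_const c)).sub (hasDerivAt_V hx0)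
    refine this.congr_deriv ?_
    simp only [id]
    ring
  have hc : ContinuousWithinAt (fun x => V1 x * (x - c) - V x) (Ici a) a := by
    refine ContinuousAt.continuousWithinAt ?_
    have h2 := (hasDerivAt_V1 ha0).continuousAt
    have h3 := (hasDerivAt_V ha0).continuousAt
    exact (h2.mul (by fun_prop)).sub h3
  have ht : Tendsto (fun x => V1 x * (x - c) - V x) atTop (𝓝 0) := by
    have hb : Tendsto (fun x : ℝ => (96 + 96 * |c| + 24) * Real.exp (-x)) atTop (𝓝 0) := by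
      have := Real.tendsto_exp_neg_atTop_nhds_zero.const_mul (96 + 96 * |c| + 24)
      simpa using this
    refine squeeze_zero_norm' ?_ hb
    filter_upwards [eventually_ge_atTop 1] with x hx
    have hx0 : 0 ≤ x := by linarith
    have a1 := V1_abs_le hx
    have a2 := V_abs_le hx
    have a3 := x_exp_le hx0
    have a4 : Real.exp (-(2 * x)) ≤ Real.exp (-x) := Real.exp_le_exp.2 (by linarith)
    have a5 := abs_nonneg c
    calc ‖V1 x * (x - c) - V x‖ ≤ |V1 x * (x - c)| + |V x| := by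
          rw [Real.norm_eq_abs]; exact abs_sub _ _
      _ ≤ |V1 x| * (x + |c|) + |V x| := by
          rw [abs_mul]
          gcongr
          have := abs_sub x c
          rwa [abs_of_nonneg hx0] at this
      _ ≤ 96 * Real.exp (-(2 * x)) * (x + |c|) + 24 * Real.exp (-(2 * x)) := by gcongr
      _ = 96 * (x * Real.exp (-(2 * x))) + 96 * |c| * Real.exp (-(2 * x)) + 24 * Real.exp (-(2 * x)) := by ring
      _ ≤ 96 * Real.exp (-x) + 96 * |c| * Real.exp (-x) + 24 * Real.exp (-x) := by gcongr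
      _ = _ := by ring
  have := integral_Ioi_of_hasDerivAt_of_tendsto hc h1 (int_sub ha) ht
  rw [this]
  ring

lemma RG_out {G s : ℝ} (hG : 1 ≤ G) (hs : G ≤ |s|) : RG G s = V s := by
  unfold RG
  have h1 : ∫ x in Ioi G, V2 x * max (x - |s|) 0 = ∫ x in Ioi |s|, V2 x * (x - |s|) := by
    rw [← integral_indicator measurableSet_Ioi, ← integral_indicator measurableSet_Ioi]
    congr 1
    ext x
    by_cases h : |s| < x
    · rw [indicator_of_mem (show x ∈ Ioi G from lt_of_le_of_lt hs h),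
        indicator_of_mem (show x ∈ Ioi |s| from h), max_eq_left (by linarith)]
    · rw [indicator_of_notMem (show x ∉ Ioi |s| from h)]
      by_cases h' : G < x
      · rw [indicator_of_mem (show x ∈ Ioi G from h'), max_eq_right (by push Not at h; linarith), mul_zero]
      · rw [indicator_of_notMem (show x ∉ Ioi G from h')]
  rw [h1, integral_sub' (hG.trans hs), sub_self, mul_zero, sub_zero, V_abs]

lemma RG_in {G s : ℝ} (hG : 1 ≤ G) (hs : |s| ≤ G) : RG G s = V G - V1 G * (G - |s|) := by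
  unfold RG
  rw [← integral_sub' hG]
  refine setIntegral_congr_fun measurableSet_Ioi fun x hx => ?_
  have hx' : G < x := hx
  rw [max_eq_left (by linarith)]

lemma RG_nonneg {G : ℝ} (hG : 1 ≤ G) (s : ℝ) : 0 ≤ RG G s := by
  unfold RG
  refine setIntegral_nonneg measurableSet_Ioi fun x hx => ?_
  have := V2_pos (by linarith [show G < x from hx] : 0 < x)
  exact mul_nonneg this.le (le_max_right _ _)

lemma RG_le {G : ℝ} (hG : 1 ≤ G) (s : ℝ) : RG G s ≤ RG G 0 := by
  unfold RG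
  refine setIntegral_mono_on (RG_int hG s) (RG_int hG 0) measurableSet_Ioi fun x hx => ?_
  have := V2_pos (by linarith [show G < x from hx] : 0 < x)
  have h2 : max (x - |s|) 0 ≤ max (x - |0|) 0 := by
    rw [abs_zero]
    exact max_le_max (by have := abs_nonneg s; linarith) le_rfl
  gcongr

/-! ### tents are positive definite -/

lemma tau_eq {x : ℝ} (a b : ℝ) : (∫ y, (Ico (a - x) a).indicator 1 y * (Ico (b - x) b).indicator (1 : ℝ → ℝ) y) =
    max (x - |a - b|) 0 := by
  have h1 : ∀ y, (Ico (a - x) a).indicator (1 : ℝ → ℝ) y * (Ico (b - x) b).indicator (1 : ℝ → ℝ) y =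
      (Ico (max (a - x) (b - x)) (min a b)).indicator (1 : ℝ → ℝ) y := by
    intro y
    rw [← Ico_inter_Ico, Set.inter_indicator_one]
    rfl
  simp_rw [h1]
  rw [integral_indicator_one measurableSet_Ico, Real.volume_real_Ico]
  congr 1
  rw [max_sub_sub_right]
  have : max a b - min a b = |a - b| := by rw [max_sub_min_eq_abs, abs_sub_comm]
  linarith

end

end NUWC
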