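import Pool.Agent.NUWC.WC
import Pool.Agent.NUP.MF.Quanta

/-!
# Window bound, line energy

`wcs`: `wc1` with the energy `(1/2) <ρ, V ρ>` on the whole line, density with an exponential tail
outside of the window; `wcs_ab`: translated window `[a, b]`; `wcP`: density `s P` (+ a constant).
-/

set_option autoImplicit false

open MeasureTheory Set Filter Topology
open Pool.Agent.Szego62 (Aser abs_term_c)

namespace NUWC

open NUMF

noncomputable section

/-- `‖V‖₁` -/
def cV : ℝ := 9 * Real.pi ^ 2 / 32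

lemma cV_pos : 0 < cV := by unfold cV; positivity

lemma UG_int {G : ℝ} (hG : 1 ≤ G) : Integrable (UG G) := V_integral.1.sub (NUC62.RG_integrable hG)

lemma UG_mass {G : ℝ} (hG : 1 ≤ G) : ∫ s, |UG G s| ≤ cV := by
  have h1 : (∫ s, |UG G s|) = ∫ s, UG G s := by
    refine integral_congr_ae ?_
    filter_upwards [ae_ne_zero] with s hs
    exact abs_of_nonneg (UG_nonneg hG hs)
  have h2 : (∫ s, UG G s) = (∫ s, V s) - ∫ s, RG G s := integral_sub V_integral.1 (NUC62.RG_integrable hG)
  have h3 : 0 ≤ ∫ s, RG G s := integral_nonneg fun s => RG_nonneg hG s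
  rw [h1, h2, V_integral.2]
  unfold cV
  linarith

lemma UG_abs_sub_int {G : ℝ} (hG : 1 ≤ G) (t : ℝ) : Integrable fun s => |UG G (t - s)| :=
  ((UG_int hG).comp_sub_left t).abs

lemma UG_mass_sub {G : ℝ} (hG : 1 ≤ G) (t : ℝ) : ∫ s, |UG G (t - s)| ≤ cV := by
  rw [integral_sub_left_eq_self (fun s => |UG G s|) volume t]
  exact UG_mass hG

lemma UP_mass {G L : ℝ} (hG : 1 ≤ G) (hL : 2 * G ≤ L) (t : ℝ) :
    IntegrableOn (fun s => |UP G L (t - s)|) (Ioc (-(L / 2)) (L / 2)) ∧
    ∫ s in Ioc (-(L / 2)) (L / 2), |UP G L (t - s)| ≤ cV := by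
  have hL0 : 0 < L := by linarith
  have hper : Function.Periodic (fun s => |UP G L s|) L := fun s => by
    simp only [UP_periodic G hL0 s]
  have h0 : IntervalIntegrable (fun s => |UP G L s|) volume (-(L / 2)) (L / 2) := (UP_intv hG hL0).abs
  have h1 : ∀ a b : ℝ, IntervalIntegrable (fun s => |UP G L s|) volume a b := K_intv hL0 hper h0
  constructor
  · rw [← intervalIntegrable_iff_integrableOn_Ioc_of_le (by linarith)]
    have h2 := (h1 (t + L / 2) (t - L / 2)).comp_sub_left t
    have e1 : t - (t + L / 2) = -(L / 2) := by ring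
    have e2 : t - (t - L / 2) = L / 2 := by ring
    rwa [e1, e2] at h2
  · rw [← intervalIntegral.integral_of_le (by linarith)]
    rw [intervalIntegral.integral_comp_sub_left (fun s => |UP G L s|) t]
    have h3 := hper.intervalIntegral_add_eq (t - L / 2) (-(L / 2))
    rw [show t - L / 2 + L = t - -(L / 2) by ring, show -(L / 2) + L = L / 2 by ring] at h3
    rw [h3, intervalIntegral.integral_of_le (by linarith)]
    have h4 : ∫ s in Ioc (-(L / 2)) (L / 2), |UP G L s| = ∫ s in Ioc (-(L / 2)) (L / 2), |UG G s| :=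
      setIntegral_congr_fun measurableSet_Ioc fun s hs => by
        rw [UP_ae hL0 s (Ioc_subset_Icc_self hs)]
    rw [h4]
    exact (setIntegral_le_integral (UG_int hG).abs (Eventually.of_forall fun s => abs_nonneg _)).trans
      (UG_mass hG)

section

variable {G T δ M : ℝ} {ρ : ℝ → ℝ}

lemma conv_diff (hG : 1 ≤ G) (hT : 0 < T) (hρ : Integrable ρ) (hM : ∀ s, |ρ s| ≤ M)
    (hδ : ∀ s, T ≤ |s| → |ρ s| ≤ δ) {t : ℝ} (ht : |t| ≤ T + G) :
    |cconv (2 * T + 2 * G) ρ (UP G (2 * T + 2 * G)) t - ∫ s, ρ s * UG G (t - s)| ≤ 2 * δ * cV := by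
  set L := 2 * T + 2 * G with hL
  have hL0 : 0 < L := by linarith
  have hL2 : L / 2 = T + G := by rw [hL]; ring
  set S := Ioc (-(L / 2)) (L / 2) with hS
  have hδ0 : 0 ≤ δ := (abs_nonneg _).trans (hδ T (le_abs_self T))
  have hU := rhoU_int hρ hM hG t
  have hP := UP_mass hG (by linarith : 2 * G ≤ L) t
  have hPi : IntegrableOn (fun s => ρ s * UP G L (t - s)) S := by
    have h1 : IntegrableOn (fun s => UP G L (t - s)) S := by
      refine Integrable.mono' hP.1 ?_ (Eventually.of_forall fun s => le_of_eq (Real.norm_eq_abs _))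
      exact ((UP_meas G L).comp (measurable_const.sub measurable_id)).aestronglyMeasurable
    exact h1.bdd_mul hρ.aestronglyMeasurable.restrict
      (Eventually.of_forall fun s => by rw [Real.norm_eq_abs]; exact hM s)
  have e1 : cconv L ρ (UP G L) t - ∫ s, ρ s * UG G (t - s) =
      (∫ s in S, ρ s * (UP G L (t - s) - UG G (t - s))) - ∫ s in Sᶜ, ρ s * UG G (t - s) := by
    have h2 : cconv L ρ (UP G L) t = ∫ s in S, ρ s * UP G L (t - s) := by
      unfold cconv
      rw [intervalIntegral.integral_of_le (by linarith)]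
    have h3 := integral_add_compl (measurableSet_Ioc (a := -(L / 2)) (b := L / 2)) hU
    have h4 : ∫ s in S, ρ s * (UP G L (t - s) - UG G (t - s)) =
        (∫ s in S, ρ s * UP G L (t - s)) - ∫ s in S, ρ s * UG G (t - s) := by
      rw [← integral_sub hPi hU.integrableOn]
      congr 1
      ext s
      ring
    rw [h2, h4, ← h3]
    ring
  have b1 : |∫ s in S, ρ s * (UP G L (t - s) - UG G (t - s))| ≤ δ * cV := by
    rw [← Real.norm_eq_abs]
    refine (norm_integral_le_of_norm_le (hP.1.const_mul δ) ?_).trans ?_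
    · refine (ae_restrict_iff' measurableSet_Ioc).2 (Eventually.of_forall fun s _ => ?_)
      rw [Real.norm_eq_abs]
      rcases le_or_gt |t - s| (L - G) with h | h
      · rw [UP_eq' hG (by linarith) h, sub_self, mul_zero, abs_zero]
        positivity
      · rw [UG_out hG (by linarith), sub_zero, abs_mul]
        refine mul_le_mul_of_nonneg_right (hδ s ?_) (abs_nonneg _)
        have := abs_sub t s
        linarith
    · rw [integral_const_mul]
      exact mul_le_mul_of_nonneg_left hP.2 hδ0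
  have b2 : |∫ s in Sᶜ, ρ s * UG G (t - s)| ≤ δ * cV := by
    rw [← Real.norm_eq_abs]
    refine (norm_integral_le_of_norm_le (((UG_abs_sub_int hG t).integrableOn (s := Sᶜ)).const_mul δ) ?_).trans ?_
    · refine (ae_restrict_iff' measurableSet_Ioc.compl).2 (Eventually.of_forall fun s hs => ?_)
      rw [Real.norm_eq_abs, abs_mul]
      refine mul_le_mul_of_nonneg_right (hδ s ?_) (abs_nonneg _)
      by_contra h
      push Not at h
      rw [abs_lt] at h
      exact hs ⟨by linarith, by linarith⟩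
    · rw [integral_const_mul]
      refine mul_le_mul_of_nonneg_left ?_ hδ0
      exact (setIntegral_le_integral (UG_abs_sub_int hG t) (Eventually.of_forall fun s => abs_nonneg _)).trans
        (UG_mass_sub hG t)
  rw [e1]
  refine (abs_sub _ _).trans ?_
  linarith

lemma A_int (hG : 1 ≤ G) (hρ : Integrable ρ) : Integrable fun t => ∫ s, ρ s * UG G (t - s) := by
  have := hρ.integrable_convolution (ContinuousLinearMap.mul ℝ ℝ) (UG_int hG)
  exact this

lemma B_int (hG : 1 ≤ G) (hρ : Integrable ρ) : Integrable fun t => ∫ s, ρ s * RG G (t - s) := by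
  have := hρ.integrable_convolution (ContinuousLinearMap.mul ℝ ℝ) (NUC62.RG_integrable hG)
  exact this

lemma rho_mul_int (hρ : Integrable ρ) (hM : ∀ s, |ρ s| ≤ M) {A : ℝ → ℝ} (hA : Integrable A) :
    Integrable fun t => ρ t * A t :=
  hA.bdd_mul hρ.aestronglyMeasurable (Eventually.of_forall fun s => by rw [Real.norm_eq_abs]; exact hM s)

lemma V_split (hG : 1 ≤ G) (hρ : Integrable ρ) (hM : ∀ s, |ρ s| ≤ M) (x : ℝ) :
    ∫ s, ρ s * V (x - s) = (∫ s, ρ s * UG G (x - s)) + ∫ s, ρ s * RG G (x - s) := by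
  rw [← integral_add (rhoU_int hρ hM hG x) (rhoR_int hρ hG x)]
  congr 1
  ext s
  unfold UG
  ring

/-- the window energy against the energy on the line -/
lemma EI_le (hG : 1 ≤ G) (hT : 0 < T) (hρc : Continuous ρ) (hρ : Integrable ρ) (hM : ∀ s, |ρ s| ≤ M)
    (hδ : ∀ s, T ≤ |s| → |ρ s| ≤ δ) :
    EI G (2 * T + 2 * G) ρ ≤ 1 / 2 * (∫ s, ρ s * ∫ s', ρ s' * V (s - s')) +
      cV / 2 * (4 * G * δ ^ 2 + δ * ∫ s in (Ioc (-(T + G)) (T + G))ᶜ, |ρ s|) := by
  set L := 2 * T + 2 * G with hL
  have hL0 : 0 < L := by linarith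
  have hL2 : L / 2 = T + G := by rw [hL]; ring
  rw [← hL2]
  set S := Ioc (-(L / 2)) (L / 2) with hS
  have hδ0 : 0 ≤ δ := (abs_nonneg _).trans (hδ T (le_abs_self T))
  have hcV := cV_pos
  set A : ℝ → ℝ := fun t => ∫ s, ρ s * UG G (t - s) with hA
  have hAi : Integrable fun t => ρ t * A t := rho_mul_int hρ hM (A_int hG hρ)
  have hBi : Integrable fun t => ρ t * ∫ s, ρ s * RG G (t - s) := rho_mul_int hρ hM (B_int hG hρ)
  have hcc : Continuous fun t => ρ t * cconv L ρ (UP G L) t :=
    hρc.mul (cconv_cont hL0 (UP_periodic G hL0) (UP_intv hG hL0) hρc)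
  have hci : IntegrableOn (fun t => ρ t * cconv L ρ (UP G L) t) S :=
    (hcc.intervalIntegrable _ _).1
  -- first step
  have s1 : (∫ t in (-(L / 2))..(L / 2), ρ t * cconv L ρ (UP G L) t) ≤
      (∫ t in S, ρ t * A t) + 4 * G * cV * δ ^ 2 := by
    rw [intervalIntegral.integral_of_le (by linarith)]
    set E : Set ℝ := Ioc (-(T + G)) (-T) ∪ Ioc T (T + G) with hE
    have hEm : MeasurableSet E := measurableSet_Ioc.union measurableSet_Ioc
    have h1 : ∀ t ∈ S, ρ t * cconv L ρ (UP G L) t ≤ ρ t * A t + E.indicator (fun _ => 2 * δ ^ 2 * cV) t := by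
      intro t ht
      have ht' : |t| ≤ T + G := by
        rw [← hL2]
        exact abs_le.2 ⟨ht.1.le, ht.2⟩
      by_cases hte : t ∈ E
      · rw [indicator_of_mem hte]
        have h2 := conv_diff hG hT hρ hM hδ ht'
        rw [← hL] at h2
        have h3 : T ≤ |t| := by
          rcases hte with h | h
          · have := neg_le_abs t
            linarith [h.2]
          · have := le_abs_self t
            linarith [h.1]
        have h4 : |ρ t * (cconv L ρ (UP G L) t - A t)| ≤ δ * (2 * δ * cV) := by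
          rw [abs_mul]
          exact mul_le_mul (hδ t h3) h2 (abs_nonneg _) hδ0
        have h5 := le_abs_self (ρ t * (cconv L ρ (UP G L) t - A t))
        nlinarith
      · rw [indicator_of_notMem hte, add_zero]
        have h3 : |t| ≤ T := by
          by_contra h
          push Not at h
          apply hte
          rw [hS, hL2] at ht
          rcases lt_abs.1 h with h' | h'
          · exact Or.inr ⟨h', ht.2⟩
          · exact Or.inl ⟨ht.1, by linarith⟩
        have := window_conv hG hT ρ h3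
        rw [← hL] at this
        rw [← this]
    have hind : IntegrableOn (E.indicator fun _ => 2 * δ ^ 2 * cV) S := by
      have : Integrable (E.indicator fun _ : ℝ => 2 * δ ^ 2 * cV) := by
        rw [integrable_indicator_iff hEm]
        refine (integrableOn_const (by
          refine (measure_union_lt_top ?_ ?_).ne
          · exact measure_Ioc_lt_top
          · exact measure_Ioc_lt_top))
      exact this.integrableOn
    have h2 := setIntegral_mono_on hci (hAi.integrableOn.add hind) measurableSet_Ioc h1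
    refine h2.trans ?_
    have h3 : (∫ t in S, (ρ t * A t + E.indicator (fun _ => 2 * δ ^ 2 * cV) t)) =
        (∫ t in S, ρ t * A t) + ∫ t in S, E.indicator (fun _ => 2 * δ ^ 2 * cV) t :=
      integral_add hAi.integrableOn hind
    simp only [Pi.add_apply] at h3 ⊢
    rw [h3]
    have h4 : ∫ t in S, E.indicator (fun _ => 2 * δ ^ 2 * cV) t ≤ 4 * G * cV * δ ^ 2 := by
      rw [integral_indicator hEm, Measure.restrict_restrict hEm, setIntegral_const, smul_eq_mul]
      have h5 : volume.real (E ∩ S) ≤ 2 * G := by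
        refine (measureReal_mono inter_subset_left (by
          refine (measure_union_lt_top ?_ ?_).ne
          · exact measure_Ioc_lt_top
          · exact measure_Ioc_lt_top)).trans ?_
        refine (measureReal_union_le _ _).trans ?_
        rw [Real.volume_real_Ioc_of_le (by linarith), Real.volume_real_Ioc_of_le (by linarith)]
        linarith
      calc volume.real (E ∩ S) * (2 * δ ^ 2 * cV) ≤ 2 * G * (2 * δ ^ 2 * cV) :=
            mul_le_mul_of_nonneg_right h5 (by positivity)
        _ = _ := by ring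
    linarith
  -- second step
  have s2 : (∫ t in S, ρ t * A t) ≤ (∫ t, ρ t * A t) + cV * δ * ∫ s in Sᶜ, |ρ s| := by
    have h1 := integral_add_compl (measurableSet_Ioc (a := -(L / 2)) (b := L / 2)) hAi
    have h2 : |∫ t in Sᶜ, ρ t * A t| ≤ cV * δ * ∫ s in Sᶜ, |ρ s| := by
      rw [← integral_const_mul, ← Real.norm_eq_abs]
      refine norm_integral_le_of_norm_le ((hρ.abs.integrableOn (s := Sᶜ)).const_mul _) ?_
      refine (ae_restrict_iff' measurableSet_Ioc.compl).2 (Eventually.of_forall fun t ht => ?_)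
      rw [Real.norm_eq_abs, abs_mul, mul_comm]
      refine mul_le_mul_of_nonneg_right ?_ (abs_nonneg _)
      have ht' : T + G ≤ |t| := by
        by_contra h
        push Not at h
        rw [abs_lt] at h
        rw [hL2] at ht
        exact ht ⟨h.1, h.2.le⟩
      calc |A t| ≤ ∫ s, δ * |UG G (t - s)| := by
            rw [← Real.norm_eq_abs]
            refine norm_integral_le_of_norm_le ((UG_abs_sub_int hG t).const_mul δ)
              (Eventually.of_forall fun s => ?_)
            rw [Real.norm_eq_abs, abs_mul]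
            rcases le_or_gt G |t - s| with h | h
            · rw [UG_out hG h, abs_zero, mul_zero, mul_zero]
            · refine mul_le_mul_of_nonneg_right (hδ s ?_) (abs_nonneg _)
              have h5 : |t| ≤ |t - s| + |s| := by
                have := abs_add_le (t - s) s
                rwa [sub_add_cancel] at this
              linarith
        _ ≤ δ * cV := by
            rw [integral_const_mul]
            exact mul_le_mul_of_nonneg_left (UG_mass_sub hG t) hδ0
        _ = cV * δ := by ring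
    have h3 := neg_abs_le (∫ t in Sᶜ, ρ t * A t)
    linarith
  -- third step
  have s3 : (∫ s, ρ s * ∫ s', ρ s' * V (s - s')) = (∫ t, ρ t * A t) +
      ∫ s, ρ s * ∫ s', ρ s' * RG G (s - s') := by
    rw [← integral_add hAi hBi]
    congr 1
    ext s
    rw [V_split hG hρ hM s]
    ring
  unfold EI
  rw [s3]
  nlinarith

lemma exp_tail {A : ℝ} (hA : 0 ≤ A) : IntegrableOn (fun s : ℝ => Real.exp (-|s|)) (Ioc (-A) A)ᶜ ∧
    ∫ s in (Ioc (-A) A)ᶜ, Real.exp (-|s|) = 2 * Real.exp (-A) := by
  have e1 : (Ioc (-A) A)ᶜ = Iic (-A) ∪ Ioi A := by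
    ext s
    simp only [mem_compl_iff, mem_Ioc, not_and_or, not_lt, not_le, mem_union, mem_Iic, mem_Ioi]
  have h1 : IntegrableOn (fun s : ℝ => Real.exp (-|s|)) (Iic (-A)) := by
    refine (integrableOn_exp_Iic (-A)).congr_fun (fun s hs => ?_) measurableSet_Iic
    have : s ≤ 0 := by
      have := mem_Iic.1 hs
      linarith
    rw [abs_of_nonpos this, neg_neg]
  have h2 : IntegrableOn (fun s : ℝ => Real.exp (-|s|)) (Ioi A) := by
    refine (integrableOn_exp_neg_Ioi A).congr_fun (fun s hs => ?_) measurableSet_Ioi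
    have : 0 ≤ s := by
      have := mem_Ioi.1 hs
      linarith
    simp only
    rw [abs_of_nonneg this]
  have v1 : ∫ s in Iic (-A), Real.exp (-|s|) = Real.exp (-A) := by
    rw [← integral_exp_Iic (-A)]
    refine setIntegral_congr_fun measurableSet_Iic fun s hs => ?_
    have : s ≤ 0 := by
      have := mem_Iic.1 hs
      linarith
    rw [abs_of_nonpos this, neg_neg]
  have v2 : ∫ s in Ioi A, Real.exp (-|s|) = Real.exp (-A) := by
    rw [← integral_exp_neg_Ioi A]
    refine setIntegral_congr_fun measurableSet_Ioi fun s hs => ?_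
    have : 0 ≤ s := by
      have := mem_Ioi.1 hs
      linarith
    rw [abs_of_nonneg this]
  have hd : Disjoint (Iic (-A)) (Ioi A) := by
    rw [Set.disjoint_left]
    intro s h3 h4
    have := mem_Iic.1 h3
    have := mem_Ioi.1 h4
    linarith
  rw [e1]
  refine ⟨h1.union h2, ?_⟩
  rw [setIntegral_union hd measurableSet_Ioi h1 h2, v1, v2]
  ring

/-- energy on the window, exponential tail -/
lemma EI_le' (hG : 1 ≤ G) (hT : 0 < T) (hρc : Continuous ρ) (hρ : Integrable ρ) (hM : ∀ s, |ρ s| ≤ M)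
    (hδ : ∀ s, T ≤ |s| → |ρ s| ≤ δ * Real.exp (-(|s| - T))) :
    EI G (2 * T + 2 * G) ρ ≤ 1 / 2 * (∫ s, ρ s * ∫ s', ρ s' * V (s - s')) +
      cV * δ ^ 2 * (2 * G + 1) := by
  have hδ0 : 0 ≤ δ := by
    have h1 := (abs_nonneg _).trans (hδ T (le_abs_self T))
    rw [abs_of_pos hT, sub_self, neg_zero, Real.exp_zero, mul_one] at h1
    exact h1
  have h1 := EI_le (M := M) hG hT hρc hρ hM (δ := δ) (fun s hs => (hδ s hs).trans (by
    have : Real.exp (-(|s| - T)) ≤ 1 := Real.exp_le_one_iff.2 (by linarith)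
    nlinarith))
  refine h1.trans ?_
  obtain ⟨i1, i2⟩ := exp_tail (A := T + G) (by linarith)
  have h2 : ∫ s in (Ioc (-(T + G)) (T + G))ᶜ, |ρ s| ≤ δ * 2 := by
    have h3 : ∫ s in (Ioc (-(T + G)) (T + G))ᶜ, |ρ s| ≤
        ∫ s in (Ioc (-(T + G)) (T + G))ᶜ, δ * Real.exp T * Real.exp (-|s|) := by
      refine setIntegral_mono_on hρ.abs.integrableOn (i1.const_mul _) measurableSet_Ioc.compl fun s hs => ?_
      have h4 : T ≤ |s| := by
        by_contra h
        push Not at h
        rw [abs_lt] at h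
        exact hs ⟨by linarith, by linarith⟩
      refine (hδ s h4).trans (le_of_eq ?_)
      rw [mul_assoc, ← Real.exp_add]
      congr 2
      ring
    refine h3.trans ?_
    rw [integral_const_mul, i2]
    have h5 : Real.exp T * (2 * Real.exp (-(T + G))) ≤ 2 := by
      have h6 : Real.exp T * Real.exp (-(T + G)) ≤ 1 := by
        rw [← Real.exp_add]
        exact Real.exp_le_one_iff.2 (by linarith)
      linarith
    calc δ * Real.exp T * (2 * Real.exp (-(T + G))) = δ * (Real.exp T * (2 * Real.exp (-(T + G)))) := by ring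
      _ ≤ δ * 2 := mul_le_mul_of_nonneg_left h5 hδ0
  have hc := cV_pos
  have h7 : δ * ∫ s in (Ioc (-(T + G)) (T + G))ᶜ, |ρ s| ≤ δ * (δ * 2) := mul_le_mul_of_nonneg_left h2 hδ0
  have h8 : cV / 2 * (4 * G * δ ^ 2 + δ * ∫ s in (Ioc (-(T + G)) (T + G))ᶜ, |ρ s|) ≤
      cV / 2 * (4 * G * δ ^ 2 + δ * (δ * 2)) := by
    refine mul_le_mul_of_nonneg_left ?_ (by positivity)
    linarith
  refine (add_le_add_right h8 _).trans (le_of_eq ?_)
  ring

end

/-- exponent of the window bound -/
def EW (G L δ : ℝ) (n : ℕ) (ρ : ℝ → ℝ) (f0 : ℝ) (f : ℕ → ℂ) (c : ℝ) : ℝ :=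
  1 / 2 * (∫ s, ρ s * ∫ s', ρ s' * V (s - s')) + n * f0 +
    (∫ t in (c - L / 2)..(c + L / 2), ρ t * Aser f (2 * Real.pi * (t - c) / L)) + QF G L f -
    NUC62.uG G L / 2 * (n - ∫ t in (c - L / 2)..(c + L / 2), ρ t) ^ 2 + 7 / 12 * L +
    NUC62.err G L n + cV * δ ^ 2 * (2 * G + 1)

/-- **Window bound**, density of any sign with an exponential tail outside of the window. -/
theorem wcs {G T δ M : ℝ} (hG : 9 ≤ G) (hT : 0 < T) (n : ℕ) {ρ : ℝ → ℝ} (hρc : Continuous ρ)
    (hρ : Integrable ρ) (hM : ∀ s, |ρ s| ≤ M)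
    (hδ : ∀ s, T ≤ |s| → |ρ s| ≤ δ * Real.exp (-(|s| - T))) (f0 : ℝ) {f : ℕ → ℂ}
    (hf : Summable fun k => ‖f k‖)
    (hfe : Summable fun k : ℕ => (2 * T + 2 * G) * ‖f k‖ ^ 2 / NUC62.uh G (NUC62.kp (2 * T + 2 * G) k))
    {F : ℝ → ℝ} (hF : ∀ x, |x| ≤ T → F x ≤ f0 + Aser f (2 * Real.pi * x / (2 * T + 2 * G))) :
    ∫⁻ t : Fin n → ℝ in Set.univ.pi fun _ => Icc (-T) T,
      ENNReal.ofReal ((∏ i, ∏ j ∈ Finset.Ioi i, om (t i - t j)) *
        ∏ i, Real.exp ((∫ s, ρ s * V (t i - s)) + F (t i))) ≤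
    ENNReal.ofReal ((n.factorial : ℝ) * (2 * Real.pi / √NUC62.cω) ^ n *
      Real.exp (EW G (2 * T + 2 * G) δ n ρ f0 f 0)) := by
  refine (wc1 hG hT n hρc hρ hM f0 hf hfe hF).trans (ENNReal.ofReal_le_ofReal ?_)
  refine mul_le_mul_of_nonneg_left (Real.exp_le_exp.2 ?_) (by positivity)
  have h1 := EI_le' (by linarith : (1:ℝ) ≤ G) hT hρc hρ hM hδ
  set L := 2 * T + 2 * G with hL
  have h2 : (∫ t in (-(L / 2))..(L / 2), ρ t * (f0 + Aser f (2 * Real.pi * t / L))) =
      mI L ρ * f0 + ∫ t in (-(L / 2))..(L / 2), ρ t * Aser f (2 * Real.pi * t / L) := by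
    have hc : Continuous fun t => Aser f (2 * Real.pi * t / L) :=
      (NUC62.Aser_cont hf).comp (by fun_prop)
    unfold mI
    have h3 := intervalIntegral.integral_add (μ := volume) (a := -(L / 2)) (b := L / 2)
      (f := fun t => ρ t * f0) (g := fun t => ρ t * Aser f (2 * Real.pi * t / L))
      ((hρc.mul continuous_const).intervalIntegrable _ _) ((hρc.mul hc).intervalIntegrable _ _)
    rw [← intervalIntegral.integral_mul_const, ← h3]
    congr 1
    ext t
    ring
  rw [h2]
  unfold EW mI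
  simp only [zero_sub, zero_add, sub_zero]
  linarith

/-- **Window bound on `[a, b]`**. -/
theorem wcs_ab {G a b δ M : ℝ} (hG : 9 ≤ G) (hab : a < b) (n : ℕ) {ρ : ℝ → ℝ} (hρc : Continuous ρ)
    (hρ : Integrable ρ) (hM : ∀ s, |ρ s| ≤ M)
    (hδ : ∀ s, (b - a) / 2 ≤ |s - (a + b) / 2| →
      |ρ s| ≤ δ * Real.exp (-(|s - (a + b) / 2| - (b - a) / 2))) (f0 : ℝ) {f : ℕ → ℂ}
    (hf : Summable fun k => ‖f k‖)
    (hfe : Summable fun k : ℕ => (b - a + 2 * G) * ‖f k‖ ^ 2 / NUC62.uh G (NUC62.kp (b - a + 2 * G) k))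
    {F : ℝ → ℝ} (hF : ∀ x ∈ Icc a b, F x ≤ f0 + Aser f (2 * Real.pi * (x - (a + b) / 2) / (b - a + 2 * G))) :
    ∫⁻ t : Fin n → ℝ in Set.univ.pi fun _ => Icc a b,
      ENNReal.ofReal ((∏ i, ∏ j ∈ Finset.Ioi i, om (t i - t j)) *
        ∏ i, Real.exp ((∫ s, ρ s * V (t i - s)) + F (t i))) ≤
    ENNReal.ofReal ((n.factorial : ℝ) * (2 * Real.pi / √NUC62.cω) ^ n *
      Real.exp (EW G (b - a + 2 * G) δ n ρ f0 f ((a + b) / 2))) := by
  set T := (b - a) / 2 with hTdef
  set c := (a + b) / 2 with hc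
  have hT : 0 < T := by rw [hTdef]; linarith
  have hL : b - a + 2 * G = 2 * T + 2 * G := by rw [hTdef]; ring
  rw [hL] at hfe hF ⊢
  -- translate
  have h1 : ∫⁻ t : Fin n → ℝ in Set.univ.pi fun _ => Icc a b,
      ENNReal.ofReal ((∏ i, ∏ j ∈ Finset.Ioi i, om (t i - t j)) *
        ∏ i, Real.exp ((∫ s, ρ s * V (t i - s)) + F (t i))) =
      ∫⁻ t : Fin n → ℝ in Set.univ.pi fun _ => Icc (-T) T,
      ENNReal.ofReal ((∏ i, ∏ j ∈ Finset.Ioi i, om (t i - t j)) *
        ∏ i, Real.exp ((∫ s, ρ (s + c) * V (t i - s)) + F (t i + c))) := by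
    have hSa : MeasurableSet (Set.univ.pi fun _ : Fin n => Icc a b) :=
      MeasurableSet.univ_pi fun _ => measurableSet_Icc
    have hSb : MeasurableSet (Set.univ.pi fun _ : Fin n => Icc (-T) T) :=
      MeasurableSet.univ_pi fun _ => measurableSet_Icc
    rw [← lintegral_indicator hSa, ← lintegral_indicator hSb,
      ← lintegral_add_right_eq_self _ (fun _ : Fin n => c)]
    refine lintegral_congr fun t => ?_
    have hmem : (t + fun _ : Fin n => c) ∈ (Set.univ.pi fun _ : Fin n => Icc a b) ↔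
        t ∈ (Set.univ.pi fun _ : Fin n => Icc (-T) T) := by
      simp only [mem_univ_pi, Pi.add_apply, mem_Icc]
      refine forall_congr' fun i => ?_
      rw [hTdef, hc]
      constructor
      · intro h
        exact ⟨by linarith [h.1], by linarith [h.2]⟩
      · intro h
        exact ⟨by linarith [h.1], by linarith [h.2]⟩
    by_cases ht : t ∈ (Set.univ.pi fun _ : Fin n => Icc (-T) T)
    · rw [indicator_of_mem ht, indicator_of_mem (hmem.2 ht)]
      simp only [Pi.add_apply, add_sub_add_right_eq_sub]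
      congr 3
      funext i
      congr 2
      rw [← integral_add_right_eq_self (fun s => ρ s * V (t i + c - s)) c]
      congr 1
      ext s
      rw [show t i + c - (s + c) = t i - s by ring]
    · rw [indicator_of_notMem ht, indicator_of_notMem (fun h => ht (hmem.1 h))]
  rw [h1]
  refine (wcs hG hT n (ρ := fun s => ρ (s + c)) (hρc.comp (by fun_prop)) (hρ.comp_add_right c)
    (fun s => hM _) (δ := δ) (fun s hs => ?_) f0 hf hfe (F := fun x => F (x + c)) (fun x hx => ?_)).trans
    (le_of_eq ?_)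
  · have := hδ (s + c) (by rw [add_sub_cancel_right]; exact hs)
    rwa [add_sub_cancel_right] at this
  · have hx' := abs_le.1 hx
    have := hF (x + c) ⟨by rw [hTdef] at hx'; rw [hc]; linarith [hx'.1], by
      rw [hTdef] at hx'; rw [hc]; linarith [hx'.2]⟩
    rwa [add_sub_cancel_right] at this
  · congr 3
    unfold EW
    have e1 : (∫ s, ρ (s + c) * ∫ s', ρ (s' + c) * V (s - s')) = ∫ s, ρ s * ∫ s', ρ s' * V (s - s') := by
      rw [← integral_add_right_eq_self (fun s => ρ s * ∫ s', ρ s' * V (s - s')) c]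
      congr 1
      ext s
      congr 1
      rw [← integral_add_right_eq_self (fun s' => ρ s' * V (s + c - s')) c]
      congr 1
      ext s'
      rw [show s + c - (s' + c) = s - s' by ring]
    have e2 : (∫ t in (0 - (2 * T + 2 * G) / 2)..(0 + (2 * T + 2 * G) / 2), ρ (t + c) *
        Aser f (2 * Real.pi * (t - 0) / (2 * T + 2 * G))) =
        ∫ t in (c - (2 * T + 2 * G) / 2)..(c + (2 * T + 2 * G) / 2), ρ t *
        Aser f (2 * Real.pi * (t - c) / (2 * T + 2 * G)) := by
      have h2 := intervalIntegral.integral_comp_add_right (a := 0 - (2 * T + 2 * G) / 2)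
        (b := 0 + (2 * T + 2 * G) / 2) (fun t => ρ t * Aser f (2 * Real.pi * (t - c) / (2 * T + 2 * G))) c
      rw [show c - (2 * T + 2 * G) / 2 = 0 - (2 * T + 2 * G) / 2 + c by ring,
        show c + (2 * T + 2 * G) / 2 = 0 + (2 * T + 2 * G) / 2 + c by ring, ← h2]
      refine intervalIntegral.integral_congr fun t _ => ?_
      rw [sub_zero, add_sub_cancel_right]
    have e3 : (∫ t in (0 - (2 * T + 2 * G) / 2)..(0 + (2 * T + 2 * G) / 2), ρ (t + c)) =
        ∫ t in (c - (2 * T + 2 * G) / 2)..(c + (2 * T + 2 * G) / 2), ρ t := by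
      have h2 := intervalIntegral.integral_comp_add_right (a := 0 - (2 * T + 2 * G) / 2)
        (b := 0 + (2 * T + 2 * G) / 2) (fun t => ρ t) c
      rw [show c - (2 * T + 2 * G) / 2 = 0 - (2 * T + 2 * G) / 2 + c by ring,
        show c + (2 * T + 2 * G) / 2 = 0 + (2 * T + 2 * G) / 2 + c by ring, ← h2]
    rw [e1, e2, e3]

/-- `s P` outside of the window -/
lemma sP_tail {s T x : ℝ} (hx : T ≤ |x|) : |s * P x| ≤
    2 * |s| * Real.exp (-(8 / 3) * T) * Real.exp (-(|x| - T)) := by
  have h1 := P_le x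
  have hp := P_pos x
  rw [abs_mul, abs_of_pos hp]
  have h2 : 32 / (3 * √3 * Real.pi) ≤ 2 := by
    rw [div_le_iff₀ (by positivity)]
    have h3 : (17 / 10 : ℝ) ≤ √3 := Real.le_sqrt_of_sq_le (by norm_num)
    have h4 := Real.pi_gt_d2
    have h5 : (17 / 10 : ℝ) * 3.14 ≤ √3 * Real.pi := mul_le_mul h3 h4.le (by norm_num) (by positivity)
    nlinarith
  have h6 : P x ≤ 2 * Real.exp (-(8 / 3) * T) * Real.exp (-(|x| - T)) := by
    refine h1.trans ?_
    rw [mul_assoc 2, ← Real.exp_add]
    refine mul_le_mul h2 (Real.exp_le_exp.2 ?_) (Real.exp_pos _).le (by norm_num)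
    linarith
  calc |s| * P x ≤ |s| * (2 * Real.exp (-(8 / 3) * T) * Real.exp (-(|x| - T))) :=
        mul_le_mul_of_nonneg_left h6 (abs_nonneg _)
    _ = _ := by ring

lemma P_bdd (x : ℝ) : |P x| ≤ 32 / (3 * √3 * Real.pi) := by
  rw [abs_of_pos (P_pos x)]
  refine (P_le x).trans ?_
  have h1 : Real.exp (-(8 / 3) * |x|) ≤ 1 := Real.exp_le_one_iff.2 (by
    have := abs_nonneg x
    linarith)
  have h2 : (0:ℝ) ≤ 32 / (3 * √3 * Real.pi) := by positivity
  nlinarith

/-- **Window bound for the row potential `s v`**. -/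
theorem wcP {G T : ℝ} (hG : 9 ≤ G) (hT : 0 < T) (n : ℕ) (s : ℝ) (f0 : ℝ) {f : ℕ → ℂ}
    (hf : Summable fun k => ‖f k‖)
    (hfe : Summable fun k : ℕ => (2 * T + 2 * G) * ‖f k‖ ^ 2 / NUC62.uh G (NUC62.kp (2 * T + 2 * G) k))
    {F : ℝ → ℝ} (hF : ∀ x, |x| ≤ T → F x ≤ f0 + Aser f (2 * Real.pi * x / (2 * T + 2 * G))) :
    ∫⁻ t : Fin n → ℝ in Set.univ.pi fun _ => Icc (-T) T,
      ENNReal.ofReal ((∏ i, ∏ j ∈ Finset.Ioi i, om (t i - t j)) *
        ∏ i, Real.exp (s * v (t i) + F (t i))) ≤
    ENNReal.ofReal ((n.factorial : ℝ) * (2 * Real.pi / √NUC62.cω) ^ n *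
      Real.exp (s ^ 2 / 2 * (∫ x, P x * v x) + n * f0 +
        s * (∫ t in (-(T + G))..(T + G), P t * Aser f (2 * Real.pi * t / (2 * T + 2 * G))) +
        QF G (2 * T + 2 * G) f -
        NUC62.uG G (2 * T + 2 * G) / 2 * (n - s * ∫ t in (-(T + G))..(T + G), P t) ^ 2 +
        7 / 12 * (2 * T + 2 * G) + NUC62.err G (2 * T + 2 * G) n +
        12 * s ^ 2 * Real.exp (-(16 / 3) * T) * (2 * G + 1))) := by
  have h1 := wcs hG hT n (ρ := fun x => s * P x) (continuous_const.mul P_cont) (P_integrable.const_mul s)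
    (M := |s| * (32 / (3 * √3 * Real.pi))) (fun x => by
      rw [abs_mul]; exact mul_le_mul_of_nonneg_left (P_bdd x) (abs_nonneg _))
    (δ := 2 * |s| * Real.exp (-(8 / 3) * T)) (fun x hx => sP_tail hx) f0 hf hfe hF
  have h2 : ∀ x, ∫ y, s * P y * V (x - y) = s * v x := by
    intro x
    rw [← (conv_V x).2, ← integral_const_mul]
    congr 1
    ext y
    ring
  simp_rw [h2] at h1
  refine h1.trans (ENNReal.ofReal_le_ofReal ?_)
  refine mul_le_mul_of_nonneg_left (Real.exp_le_exp.2 ?_) (by positivity)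
  unfold EW
  have hL2 : (2 * T + 2 * G) / 2 = T + G := by ring
  have e1 : (∫ x, s * P x * ∫ y, s * P y * V (x - y)) = s ^ 2 * ∫ x, P x * v x := by
    simp_rw [h2]
    rw [← integral_const_mul]
    congr 1
    ext x
    ring
  have e2 : (∫ t in (0 - (T + G))..(0 + (T + G)), s * P t * Aser f (2 * Real.pi * (t - 0) / (2 * T + 2 * G))) =
      s * ∫ t in (-(T + G))..(T + G), P t * Aser f (2 * Real.pi * t / (2 * T + 2 * G)) := by
    rw [← intervalIntegral.integral_const_mul, zero_sub, zero_add]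
    refine intervalIntegral.integral_congr fun t _ => ?_
    simp only [sub_zero]
    ring
  have e3 : (∫ t in (0 - (T + G))..(0 + (T + G)), s * P t) = s * ∫ t in (-(T + G))..(T + G), P t := by
    rw [← intervalIntegral.integral_const_mul, zero_sub, zero_add]
  rw [hL2, e1, e2, e3]
  have h5 : cV * (2 * |s| * Real.exp (-(8 / 3) * T)) ^ 2 * (2 * G + 1) ≤
      12 * s ^ 2 * Real.exp (-(16 / 3) * T) * (2 * G + 1) := by
    refine mul_le_mul_of_nonneg_right ?_ (by linarith)
    have h6 : (2 * |s| * Real.exp (-(8 / 3) * T)) ^ 2 = 4 * s ^ 2 * Real.exp (-(16 / 3) * T) := by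
      rw [mul_pow, mul_pow, sq_abs, ← Real.exp_nat_mul]
      push_cast
      rw [show (2:ℝ) * (-(8 / 3) * T) = -(16 / 3) * T by ring]
      ring
    have h7 : cV ≤ 3 := by
      unfold cV
      have h8 := Real.pi_lt_d2
      have h9 := Real.pi_pos
      nlinarith
    rw [h6]
    have h10 : 0 ≤ 4 * s ^ 2 * Real.exp (-(16 / 3) * T) := by positivity
    nlinarith
  linarith

end

end NUWC
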