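import Pool.Agent.NUWC.Four

/-!
# Circle convolution of a periodic kernel with a continuous density
-/

set_option autoImplicit false

open MeasureTheory Set Filter Topology Pool.Agent.Szego62

namespace NUWC

noncomputable section

/-- circle convolution (`ρ` is only used on `[-L/2, L/2]`) -/
def cconv (L : ℝ) (ρ K : ℝ → ℝ) (t : ℝ) : ℝ := ∫ s in (-(L / 2))..(L / 2), ρ s * K (t - s)

lemma cconv_periodic {L : ℝ} {K : ℝ → ℝ} (hK : Function.Periodic K L) (ρ : ℝ → ℝ) :
    Function.Periodic (cconv L ρ K) L := by
  intro t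
  unfold cconv
  congr 1
  ext s
  rw [show t + L - s = (t - s) + L by ring, hK]

lemma K_intv {L : ℝ} (hL : 0 < L) {K : ℝ → ℝ} (hK : Function.Periodic K L)
    (hKi : IntervalIntegrable K volume (-(L / 2)) (L / 2)) (a b : ℝ) : IntervalIntegrable K volume a b :=
  hK.intervalIntegrable hL.ne' (t := -(L / 2)) (by rwa [show -(L / 2) + L = L / 2 by ring]) a b

lemma cconv_eq (L : ℝ) (ρ K : ℝ → ℝ) (t : ℝ) :
    cconv L ρ K t = ∫ x in (t - L / 2)..(t + L / 2), ρ (t - x) * K x := by
  unfold cconv
  have := intervalIntegral.integral_comp_sub_left (a := -(L / 2)) (b := L / 2) (fun x => ρ (t - x) * K x) t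
  rw [show t - -(L / 2) = t + L / 2 by ring] at this
  rw [← this]
  refine intervalIntegral.integral_congr fun s _ => ?_
  rw [show t - (t - s) = s by ring]

lemma cconv_cont {L : ℝ} (hL : 0 < L) {K : ℝ → ℝ} (hK : Function.Periodic K L)
    (hKi : IntervalIntegrable K volume (-(L / 2)) (L / 2)) {ρ : ℝ → ℝ} (hρ : Continuous ρ) :
    Continuous (cconv L ρ K) := by
  rw [continuous_iff_continuousAt]
  intro t0
  obtain ⟨C, hC⟩ := (isCompact_Icc : IsCompact (Icc (-(L / 2)) (L / 2))).exists_bound_of_continuousOn
    hρ.continuousOn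
  set J : Set ℝ := Ioc (t0 - 1 - L / 2) (t0 + 1 + L / 2) with hJ
  have hKJ : IntegrableOn K J :=
    (intervalIntegrable_iff_integrableOn_Ioc_of_le (by linarith)).1 (K_intv hL hK hKi _ _)
  set F : ℝ → ℝ → ℝ := fun t x => (Ioc (t - L / 2) (t + L / 2)).indicator (fun x => ρ (t - x) * K x) x with hF
  have e1 : ∀ t ∈ Ioo (t0 - 1) (t0 + 1), cconv L ρ K t = ∫ x in J, F t x := by
    intro t ht
    rw [cconv_eq, intervalIntegral.integral_of_le (by linarith), hF]
    simp only
    rw [setIntegral_indicator measurableSet_Ioc]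
    congr 2
    ext x
    simp only [mem_inter_iff, mem_Ioc, hJ]
    constructor
    · rintro ⟨h1, h2⟩
      exact ⟨⟨by linarith [ht.1], by linarith [ht.2]⟩, h1, h2⟩
    · rintro ⟨_, h⟩
      exact h
  have e2 : ContinuousAt (fun t => ∫ x in J, F t x) t0 := by
    refine continuousAt_of_dominated (bound := fun x => C * |K x|) ?_ ?_ ?_ ?_
    · refine Eventually.of_forall fun t => ?_
      have h1 : AEStronglyMeasurable (fun x => ρ (t - x) * K x) (volume.restrict J) :=
        (hρ.comp (continuous_const.sub continuous_id)).aestronglyMeasurable.mul hKJ.aestronglyMeasurable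
      exact h1.indicator measurableSet_Ioc
    · refine Eventually.of_forall fun t => Eventually.of_forall fun x => ?_
      rw [hF]
      simp only
      by_cases h : x ∈ Ioc (t - L / 2) (t + L / 2)
      · rw [indicator_of_mem h, norm_mul, Real.norm_eq_abs (K x)]
        refine mul_le_mul_of_nonneg_right (hC _ ?_) (abs_nonneg _)
        exact ⟨by linarith [h.2], by linarith [h.1]⟩
      · rw [indicator_of_notMem h, norm_zero]
        have : 0 ≤ C := (norm_nonneg _).trans (hC 0 ⟨by linarith, by linarith⟩)
        positivity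
    · exact hKJ.abs.const_mul C
    · have hae : ∀ᵐ x : ℝ ∂(volume.restrict J), x ≠ t0 - L / 2 ∧ x ≠ t0 + L / 2 := by
        refine ae_restrict_of_ae ?_
        rw [ae_iff]
        refine measure_mono_null (t := {t0 - L / 2, t0 + L / 2}) ?_ (Set.Finite.measure_zero (by simp) _)
        intro x hx
        simp only [mem_setOf_eq, not_and_or, not_not] at hx
        simpa using hx
      filter_upwards [hae] with x hx
      by_cases h : x ∈ Ioo (t0 - L / 2) (t0 + L / 2)
      · have h1 : (fun t => F t x) =ᶠ[𝓝 t0] fun t => ρ (t - x) * K x := by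
          have h2 : ∀ᶠ t in 𝓝 t0, t < x + L / 2 := gt_mem_nhds (by linarith [h.1])
          have h3 : ∀ᶠ t in 𝓝 t0, x - L / 2 < t := lt_mem_nhds (by linarith [h.2])
          filter_upwards [h2, h3] with t a b
          rw [hF]
          simp only
          rw [indicator_of_mem]
          exact ⟨by linarith, by linarith⟩
        refine ContinuousAt.congr ?_ h1.symm
        fun_prop
      · have h1 : (fun t => F t x) =ᶠ[𝓝 t0] fun t => 0 := by
          rcases lt_or_ge x (t0 - L / 2) with h4 | h4
          · have h2 : ∀ᶠ t in 𝓝 t0, x + L / 2 < t := lt_mem_nhds (by linarith)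
            filter_upwards [h2] with t a
            rw [hF]
            simp only
            rw [indicator_of_notMem]
            intro h5
            linarith [h5.1]
          · have h6 : t0 + L / 2 < x := by
              rcases lt_trichotomy x (t0 + L / 2) with h7 | h7 | h7
              · exact absurd ⟨lt_of_le_of_ne h4 (Ne.symm hx.1), h7⟩ h
              · exact absurd h7 hx.2
              · exact h7
            have h2 : ∀ᶠ t in 𝓝 t0, t < x - L / 2 := gt_mem_nhds (by linarith)
            filter_upwards [h2] with t a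
            rw [hF]
            simp only
            rw [indicator_of_notMem]
            intro h5
            linarith [h5.2]
        exact ContinuousAt.congr continuousAt_const h1.symm
  refine e2.congr ?_
  filter_upwards [Ioo_mem_nhds (by linarith : t0 - 1 < t0) (by linarith : t0 < t0 + 1)] with t ht
  exact (e1 t ht).symm

lemma fc_cconv {L : ℝ} (hL : 0 < L) {K : ℝ → ℝ} (hKm : Measurable K) (hK : Function.Periodic K L)
    (hKi : IntervalIntegrable K volume (-(L / 2)) (L / 2)) {ρ : ℝ → ℝ} (hρ : Continuous ρ) (k : ℤ) :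
    fc L (cconv L ρ K) k = L * fc L ρ k * fc L K k := by
  set I : Set ℝ := Ioc (-(L / 2)) (L / 2) with hI
  have hle : -(L / 2) ≤ L / 2 := by linarith
  obtain ⟨C, hC⟩ := (isCompact_Icc : IsCompact (Icc (-(L / 2)) (L / 2))).exists_bound_of_continuousOn
    hρ.continuousOn
  set e : ℝ → ℂ := fun x => Complex.exp (-(2 * Real.pi * k / L * x : ℝ) * Complex.I) with he
  have hen : ∀ x, ‖e x‖ = 1 := by
    intro x
    rw [he]
    simp only
    rw [← Complex.ofReal_neg, Complex.norm_exp_ofReal_mul_I]
  have hem : Continuous e := by fun_prop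
  have headd : ∀ x y, e (x + y) = e x * e y := by
    intro x y
    rw [he]
    simp only
    rw [← Complex.exp_add]
    congr 1
    push_cast
    ring
  have heper : Function.Periodic e L := by
    intro x
    rw [headd]
    have : e L = 1 := by
      rw [he]
      simp only
      have h1 : (-((2 * Real.pi * k / L * L : ℝ) : ℂ) * Complex.I) = ((-k : ℤ) : ℂ) * (2 * Real.pi * Complex.I) := by
        rw [div_mul_cancel₀ _ hL.ne']
        push_cast
        ring
      rw [h1, Complex.exp_int_mul_two_pi_mul_I]
    rw [this, mul_one]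
  have hKabs : Function.Periodic (fun x => |K x|) L := fun x => by simp only [hK x]
  have hKint : ∀ s, IntegrableOn (fun t => K (t - s)) I := by
    intro s
    have h1 := (K_intv hL hK hKi (-(L / 2) - s) (L / 2 - s)).comp_sub_right s
    rw [sub_add_cancel, sub_add_cancel] at h1
    exact (intervalIntegrable_iff_integrableOn_Ioc_of_le hle).1 h1
  have hKm2 : Measurable fun z : ℝ × ℝ => K (z.1 - z.2) := hKm.comp (measurable_fst.sub measurable_snd)
  have hprod : Integrable (fun z : ℝ × ℝ => K (z.1 - z.2)) ((volume.restrict I).prod (volume.restrict I)) := by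
    rw [integrable_prod_iff' hKm2.aestronglyMeasurable]
    refine ⟨Eventually.of_forall fun s => hKint s, ?_⟩
    have h1 : ∀ s : ℝ, ∫ t in I, ‖K (t - s)‖ = ∫ t in (-(L / 2))..(-(L / 2) + L), |K t| := by
      intro s
      simp_rw [Real.norm_eq_abs]
      rw [← intervalIntegral.integral_of_le hle,
        intervalIntegral.integral_comp_sub_right (fun t => |K t|) s]
      have := hKabs.intervalIntegral_add_eq (-(L / 2) - s) (-(L / 2))
      rw [show -(L / 2) - s + L = L / 2 - s by ring] at this
      rw [this]
    simp_rw [h1]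
    exact integrable_const _
  have hF : Integrable (Function.uncurry fun t s => e t * ((ρ s * K (t - s) : ℝ) : ℂ))
      ((volume.restrict I).prod (volume.restrict I)) := by
    refine (hprod.norm.const_mul C).mono' ?_ ?_
    · have h1 : Measurable fun z : ℝ × ℝ => e z.1 * ((ρ z.2 * K (z.1 - z.2) : ℝ) : ℂ) := by
        have h2 : Measurable fun z : ℝ × ℝ => ρ z.2 := hρ.measurable.comp measurable_snd
        have h3 : Measurable fun z : ℝ × ℝ => e z.1 := hem.measurable.comp measurable_fst
        exact h3.mul (Complex.measurable_ofReal.comp (h2.mul hKm2))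
      exact h1.aestronglyMeasurable
    · have h1 : ∀ᵐ z : ℝ × ℝ ∂((volume.restrict I).prod (volume.restrict I)), z.2 ∈ I := by
        rw [Measure.prod_restrict]
        filter_upwards [ae_restrict_mem (measurableSet_Ioc.prod measurableSet_Ioc)] with z hz
        exact hz.2
      filter_upwards [h1] with z hz
      simp only [Function.uncurry]
      rw [norm_mul, hen, one_mul, Complex.norm_real, norm_mul]
      exact mul_le_mul_of_nonneg_right (hC _ (Ioc_subset_Icc_self hz)) (norm_nonneg _)
  have e1 : ∫ t in I, e t * ((cconv L ρ K t : ℝ) : ℂ) =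
      ∫ t in I, ∫ s in I, e t * ((ρ s * K (t - s) : ℝ) : ℂ) := by
    refine setIntegral_congr_fun measurableSet_Ioc fun t _ => ?_
    rw [integral_const_mul]
    congr 1
    unfold cconv
    rw [intervalIntegral.integral_of_le hle]
    exact (integral_ofReal (𝕜 := ℂ)).symm
  have e2 : ∀ s, ∫ t in I, e t * ((ρ s * K (t - s) : ℝ) : ℂ) =
      (e s * (ρ s : ℂ)) * ∫ x in I, e x * (K x : ℂ) := by
    intro s
    have h1 : ∀ t, e t * ((ρ s * K (t - s) : ℝ) : ℂ) = (e s * (ρ s : ℂ)) * (fun x => e x * (K x : ℂ)) (t - s) := by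
      intro t
      have := headd s (t - s)
      rw [show s + (t - s) = t by ring] at this
      simp only
      rw [this]
      push_cast
      ring
    simp_rw [h1]
    rw [integral_const_mul]
    congr 1
    rw [← intervalIntegral.integral_of_le hle, ← intervalIntegral.integral_of_le hle,
      intervalIntegral.integral_comp_sub_right (fun x => e x * (K x : ℂ)) s]
    have hper : Function.Periodic (fun x => e x * (K x : ℂ)) L := fun x => by
      simp only
      rw [heper x, hK x]
    have := hper.intervalIntegral_add_eq (-(L / 2) - s) (-(L / 2))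
    rw [show -(L / 2) - s + L = L / 2 - s by ring, show -(L / 2) + L = L / 2 by ring] at this
    exact this
  unfold fc
  rw [intervalIntegral.integral_of_le hle, intervalIntegral.integral_of_le hle,
    intervalIntegral.integral_of_le hle]
  change ((1 / L : ℝ) : ℂ) * ∫ t in I, e t * ((cconv L ρ K t : ℝ) : ℂ) = L * (((1 / L : ℝ) : ℂ) *
    ∫ t in I, e t * (ρ t : ℂ)) * (((1 / L : ℝ) : ℂ) * ∫ t in I, e t * (K t : ℂ))
  rw [e1, integral_integral_swap hF]
  simp_rw [e2]
  rw [integral_mul_const]
  have hLc : (L : ℂ) ≠ 0 := by exact_mod_cast hL.ne'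
  push_cast
  field_simp

/-- Fourier series of the convolution -/
theorem conv_series {L : ℝ} (hL : 0 < L) {K : ℝ → ℝ} (hKm : Measurable K) (hK : Function.Periodic K L)
    (hKi : IntervalIntegrable K volume (-(L / 2)) (L / 2)) {ρ : ℝ → ℝ} (hρ : Continuous ρ)
    (hs : Summable fun k : ℕ => ‖fc L ρ (k + 1)‖ * ‖fc L K (k + 1)‖) (t : ℝ) :
    cconv L ρ K t = (L * fc L ρ 0 * fc L K 0).re +
      Aser (fun k => L * fc L ρ (k + 1) * fc L K (k + 1)) (2 * Real.pi * t / L) := by
  have h := ser_of_coef hL (cconv_cont hL hK hKi hρ) (cconv_periodic hK ρ) (by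
    simp_rw [fc_cconv hL hKm hK hKi hρ]
    refine (hs.mul_left L).congr fun k => ?_
    rw [norm_mul, norm_mul, Complex.norm_real, Real.norm_eq_abs, abs_of_pos hL, mul_assoc]) t
  simp_rw [fc_cconv hL hKm hK hKi hρ] at h
  exact h

end

end NUWC
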