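import Pool.Agent.NUP.MF.Forward

/-!
# The kernel `V` is convex on the half line

`V1`, `V2` first and second derivative of `NUMF.V` on `x > 0`, `V2_pos`, decay.
-/

set_option autoImplicit false

open MeasureTheory Set Filter Topology

namespace NUWC

open NUMF

noncomputable section

def hd1 (x y : ℝ) : ℝ := 2 * Real.sinh (2 * x) / (Real.cosh (2 * x) + Real.cos (2 * y))

def hd2 (x y : ℝ) : ℝ := 4 * (1 + Real.cosh (2 * x) * Real.cos (2 * y)) /
  (Real.cosh (2 * x) + Real.cos (2 * y)) ^ 2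

/-- first derivative of `V` -/
def V1 (x : ℝ) : ℝ := 2 * hd1 x l + hd1 x (3 * l) - hd1 x (4 * l) - hd1 x (2 * l) - hd1 x 0

/-- second derivative of `V` -/
def V2 (x : ℝ) : ℝ := 2 * hd2 x l + hd2 x (3 * l) - hd2 x (4 * l) - hd2 x (2 * l) - hd2 x 0

lemma arg_pos {x : ℝ} (hx : 0 < x) (y : ℝ) : 0 < Real.cosh (2 * x) + Real.cos (2 * y) := by
  have := arg_ge x y
  have : 0 < 2 * x ^ 2 := by positivity
  linarith

lemma hasDerivAt_h {x : ℝ} (hx : 0 < x) (y : ℝ) : HasDerivAt (fun x => h x y) (hd1 x y) x := by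
  have h1 : HasDerivAt (fun x : ℝ => Real.cosh (2 * x) + Real.cos (2 * y)) (2 * Real.sinh (2 * x)) x := by
    have h2 : HasDerivAt (fun x : ℝ => 2 * x) 2 x := by
      simpa using (hasDerivAt_id x).const_mul (2 : ℝ)
    refine (h2.cosh.add_const _).congr_deriv ?_
    ring
  exact h1.log (arg_pos hx y).ne'

lemma hasDerivAt_hd1 {x : ℝ} (hx : 0 < x) (y : ℝ) : HasDerivAt (fun x => hd1 x y) (hd2 x y) x := by
  have h2 : HasDerivAt (fun x : ℝ => 2 * x) 2 x := by
    simpa using (hasDerivAt_id x).const_mul (2 : ℝ)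
  have h1 : HasDerivAt (fun x : ℝ => Real.cosh (2 * x) + Real.cos (2 * y)) (2 * Real.sinh (2 * x)) x := by
    refine (h2.cosh.add_const _).congr_deriv ?_
    ring
  have h3 : HasDerivAt (fun x : ℝ => 2 * Real.sinh (2 * x)) (4 * Real.cosh (2 * x)) x := by
    refine (h2.sinh.const_mul 2).congr_deriv ?_
    ring
  refine (h3.div h1 (arg_pos hx y).ne').congr_deriv ?_
  unfold hd2
  congr 1
  have := Real.cosh_sq (2 * x)
  linear_combination 4 * this

lemma V_h {x : ℝ} (hx : 0 < x) : V x = 2 * h x l + h x (3 * l) - h x (4 * l) - h x (2 * l) - h x 0 := by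
  rw [V_eq hx.ne', log_w hx.ne', log_g]
  rw [show 3 * l + l = 4 * l by ring, show 3 * l - l = 2 * l by ring, zero_add, zero_sub, h_neg_right]
  ring

lemma hasDerivAt_V {x : ℝ} (hx : 0 < x) : HasDerivAt V (V1 x) x := by
  have h1 : HasDerivAt (fun x => 2 * h x l + h x (3 * l) - h x (4 * l) - h x (2 * l) - h x 0) (V1 x) x :=
    (((((hasDerivAt_h hx l).const_mul 2).add (hasDerivAt_h hx (3 * l))).sub
      (hasDerivAt_h hx (4 * l))).sub (hasDerivAt_h hx (2 * l))).sub (hasDerivAt_h hx 0)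
  refine h1.congr_of_eventuallyEq ?_
  filter_upwards [Ioi_mem_nhds hx] with y hy
  exact V_h hy

lemma hasDerivAt_V1 {x : ℝ} (hx : 0 < x) : HasDerivAt V1 (V2 x) x :=
  (((((hasDerivAt_hd1 hx l).const_mul 2).add (hasDerivAt_hd1 hx (3 * l))).sub
      (hasDerivAt_hd1 hx (4 * l))).sub (hasDerivAt_hd1 hx (2 * l))).sub (hasDerivAt_hd1 hx 0)

lemma r_sq : r ^ 2 = 1 / 2 := by
  unfold r
  rw [div_pow, Real.sq_sqrt (by norm_num)]
  norm_num

lemma cosl : Real.cos (2 * l) = r := by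
  rw [r_eq]; congr 1; unfold l; ring

lemma cos3l : Real.cos (2 * (3 * l)) = -r := by
  rw [r_eq, ← Real.cos_pi_sub]; congr 1; unfold l; ring

lemma cos2l : Real.cos (2 * (2 * l)) = 0 := by
  rw [← Real.cos_pi_div_two]; congr 1; unfold l; ring

lemma cos4l : Real.cos (2 * (4 * l)) = -1 := by
  rw [← Real.cos_pi]; congr 1; unfold l; ring

lemma one_lt_C {x : ℝ} (hx : 0 < x) : 1 < Real.cosh (2 * x) := Real.one_lt_cosh.2 (by linarith)

theorem V2_pos {x : ℝ} (hx : 0 < x) : 0 < V2 x := by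
  have hC := one_lt_C hx
  have hr := r_pos
  have hr1 := r_lt_one
  have hr2 := r_sq
  unfold V2 hd2
  rw [cosl, cos3l, cos2l, cos4l, show (2:ℝ) * 0 = 0 by norm_num, Real.cos_zero]
  generalize Real.cosh (2 * x) = C at hC
  have e : 2 * (4 * (1 + C * r) / (C + r) ^ 2) + 4 * (1 + C * -r) / (C + -r) ^ 2 -
      4 * (1 + C * -1) / (C + -1) ^ 2 - 4 * (1 + C * 0) / (C + 0) ^ 2 - 4 * (1 + C * 1) / (C + 1) ^ 2 =
      4 * ((r * C ^ 3 - 3 / 2 * r * C + 3 / 2) / ((C + r) ^ 2 * (C - r) ^ 2) +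
        (C ^ 2 + 1) / (C ^ 2 * (C ^ 2 - 1))) := by
    have a1 : C + r ≠ 0 := by linarith
    have a2 : C - r ≠ 0 := by linarith
    have a2' : C + -r ≠ 0 := by linarith
    have a3 : C - 1 ≠ 0 := by linarith
    have a3' : C + -1 ≠ 0 := by linarith
    have a4 : C + 1 ≠ 0 := by linarith
    have a5 : C ≠ 0 := by linarith
    have a5' : C + 0 ≠ 0 := by linarith
    have a6 : C ^ 2 - 1 ≠ 0 := by nlinarith
    have e1 : 2 * (4 * (1 + C * r) / (C + r) ^ 2) + 4 * (1 + C * -r) / (C + -r) ^ 2 =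
        4 * ((r * C ^ 3 - 3 / 2 * r * C + 3 / 2) / ((C + r) ^ 2 * (C - r) ^ 2)) := by
      rw [show C + -r = C - r by ring]
      field_simp
      linear_combination ((2 + 8 * r * C - 8 * C ^ 2 - 2 * r * C + 1) + (3 - 4 * C * r - 4 * C ^ 2)) * hr2
    have e2 : 4 * (1 + C * -1) / (C + -1) ^ 2 = -(4 / (C - 1)) := by
      rw [show C + -1 = C - 1 by ring]
      field_simp
      ring
    have e3 : 4 * (1 + C * 1) / (C + 1) ^ 2 = 4 / (C + 1) := by
      field_simp
      ring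
    rw [e1, e2, e3]
    have e4 : (C ^ 2 + 1) / (C ^ 2 * (C ^ 2 - 1)) = 1 / (C - 1) - 1 / C ^ 2 - 1 / (C + 1) := by
      field_simp
      ring
    rw [e4]
    field_simp
    ring
  rw [e]
  have b1 : 0 < r * C ^ 3 - 3 / 2 * r * C + 3 / 2 := by
    have : 0 < C ^ 2 - 1 := by nlinarith
    have h1 : 0 < r * C * (C ^ 2 - 1) := by positivity
    have h2 : r * C < C := by nlinarith
    nlinarith [sq_nonneg (C - 1), sq_nonneg (r * C - 3 / 2), mul_pos hr (by linarith : (0:ℝ) < C)]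
  have b2 : 0 < (C + r) ^ 2 * (C - r) ^ 2 := by
    have : 0 < C - r := by linarith
    have : 0 < C + r := by linarith
    positivity
  have b3 : 0 < C ^ 2 * (C ^ 2 - 1) := by
    have : 0 < C ^ 2 - 1 := by nlinarith
    have : 0 < C := by linarith
    positivity
  have b4 : 0 < C ^ 2 + 1 := by positivity
  positivity

end

end NUWC
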