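import Pool.Agent.NUWC.CirConv
import Pool.Agent.NUWC.LemA

/-!
# Periodic version of the compact kernel, square integrability, Parseval data
-/

set_option autoImplicit false

open MeasureTheory Set Filter Topology Pool.Agent.Szego62

namespace NUWC

open NUMF

noncomputable section

/-- periodic version of `UG` -/
def UP (G L x : ℝ) : ℝ := UG G (L * (Int.fract (x / L + 1 / 2) - 1 / 2))

lemma UP_periodic (G : ℝ) {L : ℝ} (hL : 0 < L) : Function.Periodic (UP G L) L := by
  intro x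
  unfold UP
  rw [add_div, div_self hL.ne', show x / L + 1 + 1 / 2 = x / L + 1 / 2 + 1 by ring, Int.fract_add_one]

lemma UP_eq {G L x : ℝ} (hL : 0 < L) (hx : |x| ≤ L / 2) : UP G L x = UG G x := by
  unfold UP
  rw [abs_le] at hx
  rcases eq_or_lt_of_le hx.2 with h | h
  · rw [h, show L / 2 / L + 1 / 2 = 1 by field_simp; norm_num, Int.fract_one,
      show L * (0 - 1 / 2) = -(L / 2) by ring, UG_neg]
  · have h1 : Int.fract (x / L + 1 / 2) = x / L + 1 / 2 := by
      rw [Int.fract_eq_self]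
      constructor
      · have : -(1 / 2) ≤ x / L := by rw [le_div_iff₀ hL]; linarith
        linarith
      · have : x / L < 1 / 2 := by rw [div_lt_iff₀ hL]; linarith
        linarith
    rw [h1]
    congr 1
    field_simp
    ring

lemma UP_meas (G L : ℝ) : Measurable (UP G L) := by
  unfold UP
  have : Measurable fun x : ℝ => L * (Int.fract (x / L + 1 / 2) - 1 / 2) := by
    have h1 : Measurable fun x : ℝ => Int.fract (x / L + 1 / 2) := measurable_fract.comp (by fun_prop)
    fun_prop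
  exact (UG_meas G).comp this

/-- on `|x| ≤ L - G` the periodic kernel is the kernel -/
lemma UP_eq' {G L x : ℝ} (hG : 1 ≤ G) (hL : 2 * G ≤ L) (hx : |x| ≤ L - G) : UP G L x = UG G x := by
  have hL0 : 0 < L := by linarith
  rcases le_or_gt |x| (L / 2) with h | h
  · exact UP_eq hL0 h
  · rw [UG_out hG (by linarith)]
    rcases lt_or_ge x 0 with h0 | h0
    · rw [abs_of_neg h0] at h hx
      rw [← UP_periodic G hL0 x, UP_eq hL0 (by rw [abs_of_nonneg (by linarith)]; linarith),
        UG_out hG (by rw [abs_of_nonneg (by linarith)]; linarith)]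
    · rw [abs_of_nonneg h0] at h hx
      have := UP_periodic G hL0 (x - L)
      rw [sub_add_cancel] at this
      rw [this, UP_eq hL0 (by rw [abs_of_nonpos (by linarith)]; linarith),
        UG_out hG (by rw [abs_of_nonpos (by linarith)]; linarith)]

lemma mell_le_rpow {s : ℝ} (hs : 0 < s) : mell s ≤ 8 * (1 + s ^ (-(1 / 4) : ℝ)) := by
  unfold mell
  have h1 : s / (1 + s) ≤ 1 - Real.exp (-s) := by
    have h2 := Real.add_one_le_exp s
    rw [Real.exp_neg, div_le_iff₀ (by linarith)]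
    have h3 : (Real.exp s)⁻¹ ≤ (1 + s)⁻¹ := inv_anti₀ (by linarith) (by linarith)
    have h4 : (1 + s)⁻¹ * (1 + s) = 1 := inv_mul_cancel₀ (by linarith)
    nlinarith
  have h2 : 0 < s / (1 + s) := by positivity
  have h3 : Real.log (s / (1 + s)) ≤ Real.log (1 - Real.exp (-s)) := Real.log_le_log h2 h1
  have h4 : Real.log (s / (1 + s)) = - Real.log (1 + 1 / s) := by
    rw [← Real.log_inv]
    congr 1
    field_simp
    ring
  have h5 : Real.log (1 + 1 / s) ≤ (1 + 1 / s) ^ ((1 / 4 : ℝ)) / (1 / 4) :=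
    Real.log_le_rpow_div (by positivity) (by norm_num)
  have h6 : (1 + 1 / s) ^ ((1 / 4 : ℝ)) ≤ 1 ^ ((1 / 4 : ℝ)) + (1 / s) ^ ((1 / 4 : ℝ)) :=
    Real.rpow_add_le_add_rpow (by norm_num) (by positivity) (by norm_num) (by norm_num)
  have h7 : (1 / s) ^ ((1 / 4 : ℝ)) = s ^ (-(1 / 4) : ℝ) := by
    rw [one_div, Real.inv_rpow hs.le, Real.rpow_neg hs.le]
  rw [Real.one_rpow, h7] at h6
  linarith

lemma UG_abs_le {G s : ℝ} (hG : 1 ≤ G) (hs : s ≠ 0) : |UG G s| ≤ 48 * (1 + |s| ^ (-(1 / 4) : ℝ)) := by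
  have h0 := UG_nonneg hG hs
  have h1 : UG G s ≤ V s := by
    unfold UG
    linarith [RG_nonneg hG s]
  rw [abs_of_nonneg h0]
  refine h1.trans ((le_abs_self _).trans ((V_abs_le_mell hs).trans ?_))
  have hs' : 0 < |s| := abs_pos.2 hs
  have h2 := mell_le_rpow (s := 2 * |s|) (by positivity)
  have h3 : (2 * |s|) ^ (-(1 / 4) : ℝ) ≤ |s| ^ (-(1 / 4) : ℝ) :=
    Real.rpow_le_rpow_of_nonpos hs' (by linarith) (by norm_num)
  linarith

lemma UG_memLp {G : ℝ} (hG : 1 ≤ G) {L : ℝ} (hL : 0 < L) :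
    MemLp (UG G) 2 (volume.restrict (Ioc (-(L / 2)) (L / 2))) := by
  rw [memLp_two_iff_integrable_sq (UG_meas G).aestronglyMeasurable]
  have h1 : IntegrableOn (fun x : ℝ => 4608 * (1 + |x| ^ (-(1 / 2) : ℝ))) (Ioc (-(L / 2)) (L / 2)) := by
    have h2 : IntegrableOn (fun x : ℝ => |x| ^ (-(1 / 2) : ℝ)) (Ioc (-(L / 2)) (L / 2)) := by
      have h3 : IntegrableOn (fun x : ℝ => (Ioc 0 (L / 2)).indicator (fun x => x ^ (-(1 / 2) : ℝ)) x) (Ioi 0) := by
        rw [IntegrableOn, integrable_indicator_iff measurableSet_Ioc, IntegrableOn,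
          Measure.restrict_restrict measurableSet_Ioc]
        have h4 := (intervalIntegrable_iff_integrableOn_Ioc_of_le (by linarith : (0:ℝ) ≤ L / 2)).1
          (intervalIntegral.intervalIntegrable_rpow' (a := 0) (b := L / 2) (r := -(1 / 2)) (by norm_num))
        exact h4.mono_set inter_subset_left
      have h5 := integrable_comp_abs' h3
      refine (h5.integrableOn (s := Ioc (-(L / 2)) (L / 2))).congr ?_
      filter_upwards [ae_restrict_mem measurableSet_Ioc, ae_restrict_of_ae ae_ne_zero] with x hx hx0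
      rw [indicator_of_mem]
      exact ⟨abs_pos.2 hx0, abs_le.2 ⟨hx.1.le, hx.2⟩⟩
    exact ((integrableOn_const (by simp) (by simp)).add h2).const_mul _
  refine h1.mono' (by have := UG_meas G; fun_prop) ?_
  filter_upwards [ae_restrict_of_ae ae_ne_zero] with x hx0
  have h2 := UG_abs_le hG hx0
  have hx' : 0 < |x| := abs_pos.2 hx0
  rw [Real.norm_eq_abs, abs_pow]
  have h3 : (|x| ^ (-(1 / 4) : ℝ)) ^ 2 = |x| ^ (-(1 / 2) : ℝ) := by
    rw [← Real.rpow_natCast, ← Real.rpow_mul hx'.le]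
    norm_num
  have h4 : 0 ≤ |x| ^ (-(1 / 4) : ℝ) := by positivity
  have h5 := abs_nonneg (UG G x)
  rw [← h3]
  nlinarith [sq_nonneg (1 - |x| ^ (-(1 / 4) : ℝ))]

lemma UG_intv {G : ℝ} (hG : 1 ≤ G) {L : ℝ} (hL : 0 < L) : IntervalIntegrable (UG G) volume (-(L / 2)) (L / 2) := by
  rw [intervalIntegrable_iff_integrableOn_Ioc_of_le (by linarith)]
  exact (UG_memLp hG hL).integrable (by norm_num)

lemma UP_ae {G L : ℝ} (hL : 0 < L) : ∀ x ∈ Icc (-(L / 2)) (L / 2), UP G L x = UG G x :=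
  fun _ hx => UP_eq hL (abs_le.2 hx)

lemma UP_intv {G : ℝ} (hG : 1 ≤ G) {L : ℝ} (hL : 0 < L) :
    IntervalIntegrable (UP G L) volume (-(L / 2)) (L / 2) := by
  refine (UG_intv hG hL).congr ?_
  rw [uIoc_of_le (by linarith)]
  exact fun x hx => (UP_ae hL x (Ioc_subset_Icc_self hx)).symm

lemma fc_congr {L : ℝ} (hL : 0 < L) {f g : ℝ → ℝ} (h : ∀ x ∈ Icc (-(L / 2)) (L / 2), f x = g x) (k : ℤ) :
    fc L f k = fc L g k := by
  unfold fc
  congr 1
  refine intervalIntegral.integral_congr fun x hx => ?_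
  rw [uIcc_of_le (by linarith)] at hx
  rw [h x hx]

lemma fc_on {L : ℝ} (hL : 0 < L) (f : ℝ → ℝ) (k : ℤ) :
    fourierCoeffOn (a := -(L / 2)) (b := L / 2) (by linarith) (fun x => (f x : ℂ)) k = fc L f k := by
  rw [fourierCoeffOn_eq_integral]
  unfold fc
  rw [show L / 2 - -(L / 2) = L by ring, Complex.real_smul]
  congr 1
  refine intervalIntegral.integral_congr fun x _ => ?_
  simp only [smul_eq_mul]
  rw [fourier_coe_apply]
  congr 2
  push_cast
  ring

lemma fc_sq_summable {L : ℝ} (hL : 0 < L) {f : ℝ → ℝ}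
    (hf : MemLp f 2 (volume.restrict (Ioc (-(L / 2)) (L / 2)))) :
    Summable fun k : ℤ => ‖fc L f k‖ ^ 2 := by
  have h1 : MemLp (fun x => (f x : ℂ)) 2 (volume.restrict (Ioc (-(L / 2)) (L / 2))) := hf.ofReal
  have h2 := (hasSum_sq_fourierCoeffOn (by linarith : -(L / 2) < L / 2) h1).summable
  refine h2.congr fun k => ?_
  rw [fc_on hL]

lemma fc_prod_summable {L : ℝ} (hL : 0 < L) {f g : ℝ → ℝ}
    (hf : MemLp f 2 (volume.restrict (Ioc (-(L / 2)) (L / 2))))
    (hg : MemLp g 2 (volume.restrict (Ioc (-(L / 2)) (L / 2)))) :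
    Summable fun k : ℕ => ‖fc L f (k + 1)‖ * ‖fc L g (k + 1)‖ := by
  have h1 := fc_sq_summable hL hf
  have h2 := fc_sq_summable hL hg
  have hinj : Function.Injective fun k : ℕ => ((k : ℤ) + 1) := fun a b h => by
    simp only [add_left_inj, Nat.cast_inj] at h
    exact h
  have h3 := (h1.comp_injective hinj).add (h2.comp_injective hinj)
  refine Summable.of_nonneg_of_le (fun k => by positivity) (fun k => ?_) h3
  simp only [Function.comp]
  nlinarith [sq_nonneg (‖fc L f (k + 1)‖ - ‖fc L g (k + 1)‖), norm_nonneg (fc L f (k + 1)),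
    norm_nonneg (fc L g (k + 1))]

lemma cont_memLp {L : ℝ} {f : ℝ → ℝ} (hf : Continuous f) :
    MemLp f 2 (volume.restrict (Ioc (-(L / 2)) (L / 2))) := by
  obtain ⟨C, hC⟩ := (isCompact_Icc : IsCompact (Icc (-(L / 2)) (L / 2))).exists_bound_of_continuousOn
    hf.continuousOn
  refine MemLp.of_bound hf.aestronglyMeasurable C ?_
  filter_upwards [ae_restrict_mem measurableSet_Ioc] with x hx
  exact hC x (Ioc_subset_Icc_self hx)

end

end NUWC
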