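import Pool.Agent.Szego62.RU

/-!
# Fourier series of periodic functions in the form `a0 + Aser c`

* `ser_of_coef`: a continuous `L`-periodic real function with summable coefficients.
* `conv_series`: circle convolution of a kernel with a continuous density.
-/

set_option autoImplicit false

open MeasureTheory Set Filter Topology Pool.Agent.Szego62

namespace NUWC

noncomputable section

/-- Fourier coefficient on the circle of length `L` -/
def fc (L : ℝ) (f : ℝ → ℝ) (k : ℤ) : ℂ :=
  (1 / L : ℝ) * ∫ x in (-(L / 2))..(L / 2), Complex.exp (-(2 * Real.pi * k / L * x : ℝ) * Complex.I) * (f x : ℂ)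

lemma fc_neg (L : ℝ) (f : ℝ → ℝ) (k : ℤ) : fc L f (-k) = (starRingEnd ℂ) (fc L f k) := by
  unfold fc
  have hconj : ∀ F : ℝ → ℂ, (starRingEnd ℂ) (∫ x in (-(L / 2))..(L / 2), F x) =
      ∫ x in (-(L / 2))..(L / 2), (starRingEnd ℂ) (F x) := by
    intro F
    simp only [intervalIntegral, map_sub, ← integral_conj]
  rw [map_mul, Complex.conj_ofReal, hconj]
  congr 1
  refine intervalIntegral.integral_congr fun x _ => ?_
  simp only [map_mul, Complex.conj_ofReal]
  rw [← Complex.exp_conj]
  congr 2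
  simp only [map_mul, map_neg, Complex.conj_ofReal, Complex.conj_I]
  push_cast
  ring

/-- continuous function on the circle -/
def lf {L : ℝ} {f : ℝ → ℝ} (hf : Continuous f) (hp : Function.Periodic f L) : C(AddCircle L, ℂ) where
  toFun := fun x => ((hp.lift x : ℝ) : ℂ)
  continuous_toFun := by
    refine Complex.continuous_ofReal.comp ?_
    exact continuous_coinduced_dom.2 hf

lemma lf_coe {L : ℝ} {f : ℝ → ℝ} (hf : Continuous f) (hp : Function.Periodic f L) (x : ℝ) :
    lf hf hp (x : AddCircle L) = (f x : ℂ) := rfl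

lemma lf_coeff {L : ℝ} [hL : Fact (0 < L)] {f : ℝ → ℝ} (hf : Continuous f) (hp : Function.Periodic f L)
    (k : ℤ) : fourierCoeff (lf hf hp) k = fc L f k := by
  rw [fourierCoeff_eq_intervalIntegral _ k (-(L / 2))]
  unfold fc
  rw [show -(L / 2) + L = L / 2 by ring, Complex.real_smul]
  congr 1
  refine intervalIntegral.integral_congr fun x _ => ?_
  simp only [lf_coe, smul_eq_mul]
  rw [fourier_coe_apply]
  congr 2
  push_cast
  ring

theorem ser_of_coef {L : ℝ} (hL : 0 < L) {f : ℝ → ℝ} (hf : Continuous f) (hp : Function.Periodic f L)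
    (hs : Summable fun k : ℕ => ‖fc L f (k + 1)‖) (t : ℝ) :
    f t = (fc L f 0).re + Aser (fun k => fc L f (k + 1)) (2 * Real.pi * t / L) := by
  haveI : Fact (0 < L) := ⟨hL⟩
  have hneg : ∀ k : ℕ, ‖fc L f (-(k + 1 : ℕ))‖ = ‖fc L f (k + 1)‖ := by
    intro k
    rw [fc_neg, Complex.norm_conj]
    push_cast
    rfl
  have hsum : Summable (fourierCoeff (lf hf hp)) := by
    have h1 : (fourierCoeff (lf hf hp)) = fun k => fc L f k := funext fun k => lf_coeff hf hp k
    rw [h1]
    refine Summable.of_nat_of_neg_add_one ?_ ?_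
    · refine (summable_nat_add_iff 1).1 ?_
      refine Summable.of_norm ?_
      refine hs.congr fun k => ?_
      push_cast
      rfl
    · refine Summable.of_norm ?_
      refine hs.congr fun k => ?_
      rw [← hneg]
      push_cast
      rfl
  have h2 := has_pointwise_sum_fourier_series_of_summable hsum (t : AddCircle L)
  rw [lf_coe] at h2
  simp_rw [lf_coeff hf hp] at h2
  set F : ℤ → ℂ := fun k => fc L f k • fourier k (t : AddCircle L) with hF
  have hFn : ∀ k, ‖F k‖ = ‖fc L f k‖ := by
    intro k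
    rw [hF]
    simp only [smul_eq_mul, norm_mul]
    rw [fourier_apply, Circle.norm_coe, mul_one]
  have s1 : Summable fun n : ℕ => F (n + 1) := Summable.of_norm (hs.congr fun k => by rw [hFn])
  have s1' : Summable fun n : ℕ => F n := by
    refine (summable_nat_add_iff 1).1 ?_
    refine s1.congr fun k => ?_
    push_cast
    rfl
  have s2 : Summable fun n : ℕ => F (-(n + 1 : ℤ)) := by
    refine Summable.of_norm (hs.congr fun k => ?_)
    rw [hFn, ← hneg]
    push_cast
    rfl
  have h3 := h2.tsum_eq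
  change ∑' k, F k = (f t : ℂ) at h3
  rw [tsum_of_nat_of_neg_add_one s1' s2, s1'.tsum_eq_zero_add] at h3
  have h4 : (∑' b : ℕ, F ((b + 1 : ℕ) : ℤ)) + ∑' n : ℕ, F (-(n + 1 : ℤ)) =
      ∑' k : ℕ, (F (k + 1) + F (-(k + 1 : ℤ))) := by
    rw [s1.tsum_add s2]
    congr 1
  have h5 : ∀ k : ℕ, F (k + 1) + F (-(k + 1 : ℤ)) =
      ((2 * (fc L f (k + 1) * Complex.exp ((k + 1 : ℂ) * ((2 * Real.pi * t / L : ℝ) : ℂ) * Complex.I)).re : ℝ) : ℂ) := by
    intro k
    have e1 : fourier ((k : ℤ) + 1) (t : AddCircle L) =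
        Complex.exp ((k + 1 : ℂ) * ((2 * Real.pi * t / L : ℝ) : ℂ) * Complex.I) := by
      rw [fourier_coe_apply]
      congr 1
      push_cast
      ring
    have e2 : F (-(k + 1 : ℤ)) = (starRingEnd ℂ) (F (k + 1)) := by
      rw [hF]
      simp only [smul_eq_mul, map_mul]
      rw [fc_neg, fourier_neg]
    rw [e2]
    have e3 : F (k + 1) = fc L f (k + 1) * Complex.exp ((k + 1 : ℂ) * ((2 * Real.pi * t / L : ℝ) : ℂ) * Complex.I) := by
      rw [hF]
      simp only [smul_eq_mul]
      rw [e1]
    rw [← e3, Complex.add_conj]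
  have h6 : F ((0:ℕ) : ℤ) = ((fc L f 0).re : ℂ) := by
    rw [hF]
    simp only [Nat.cast_zero, fourier_zero, smul_eq_mul, mul_one]
    have := fc_neg L f 0
    rw [neg_zero] at this
    exact (Complex.conj_eq_iff_re.1 this.symm).symm
  rw [add_assoc, h4, h6] at h3
  simp_rw [h5] at h3
  rw [← Complex.ofReal_tsum, ← Complex.ofReal_add, Complex.ofReal_inj] at h3
  rw [← h3]
  rfl

end

end NUWC
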