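import Pool.Agent.NUWC.Tent

/-!
# Positive definiteness of the tail kernel
-/

set_option autoImplicit false

open MeasureTheory Set Filter Topology

namespace NUWC

open NUMF

noncomputable section

variable {X : Type*} [MeasurableSpace X]

/-- indicator `y < p ≤ y + x` as a function of `(p, y)` -/
def bx (x a y : ℝ) : ℝ := (Ico (a - x) a).indicator (1 : ℝ → ℝ) y

lemma bx_nonneg (x a y : ℝ) : 0 ≤ bx x a y := indicator_nonneg (fun _ _ => zero_le_one) _

lemma bx_le (x a y : ℝ) : bx x a y ≤ 1 := indicator_le_self' (fun _ _ => zero_le_one) _ |>.trans le_rfl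

lemma bx_meas (x : ℝ) : Measurable fun z : ℝ × ℝ => bx x z.1 z.2 := by
  have : (fun z : ℝ × ℝ => bx x z.1 z.2) = {z : ℝ × ℝ | z.1 - x ≤ z.2 ∧ z.2 < z.1}.indicator 1 := by
    ext z
    unfold bx
    by_cases h : z.2 ∈ Ico (z.1 - x) z.1
    · rw [indicator_of_mem h, indicator_of_mem (show z ∈ {z : ℝ × ℝ | z.1 - x ≤ z.2 ∧ z.2 < z.1} from h)]
      rfl
    · rw [indicator_of_notMem h,
        indicator_of_notMem (show z ∉ {z : ℝ × ℝ | z.1 - x ≤ z.2 ∧ z.2 < z.1} from h)]
  rw [this]
  refine measurable_one.indicator ?_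
  have m1 : MeasurableSet {z : ℝ × ℝ | z.1 - x ≤ z.2} := measurableSet_le (by fun_prop) (by fun_prop)
  have m2 : MeasurableSet {z : ℝ × ℝ | z.2 < z.1} := measurableSet_lt (by fun_prop) (by fun_prop)
  exact m1.inter m2

lemma bx_int (x a b : ℝ) : Integrable fun y => bx x a y * bx x b y := by
  have h1 : Integrable fun y => bx x a y := by
    unfold bx
    exact (integrable_indicator_iff measurableSet_Ico).2
      (integrableOn_const (by simp) (by simp))
  refine h1.mul_bdd (c := 1) ?_ ?_
  · exact ((bx_meas x).comp (measurable_const.prodMk measurable_id)).aestronglyMeasurable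
  · refine Eventually.of_forall fun y => ?_
    rw [Real.norm_eq_abs, abs_of_nonneg (bx_nonneg _ _ _)]
    exact bx_le _ _ _

lemma bx_integral (x a b : ℝ) : ∫ y, bx x a y * bx x b y = max (x - |a - b|) 0 := tau_eq a b

theorem tent_psd {lam : Measure X} [SFinite lam] {p q : X → ℝ} (hp : Measurable p)
    (hq : Integrable q lam) {x : ℝ} (hx : 0 ≤ x) :
    0 ≤ ∫ z : X × X, q z.1 * q z.2 * max (x - |p z.1 - p z.2|) 0 ∂(lam.prod lam) := by
  have hqq : Integrable (fun z : X × X => q z.1 * q z.2) (lam.prod lam) := hq.mul_prod hq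
  have hb1 : Measurable fun w : (X × X) × ℝ => bx x (p w.1.1) w.2 :=
    (bx_meas x).comp ((hp.comp (measurable_fst.comp measurable_fst)).prodMk measurable_snd)
  have hb2 : Measurable fun w : (X × X) × ℝ => bx x (p w.1.2) w.2 :=
    (bx_meas x).comp ((hp.comp (measurable_snd.comp measurable_fst)).prodMk measurable_snd)
  have hm : AEStronglyMeasurable (fun w : (X × X) × ℝ => q w.1.1 * q w.1.2 *
      (bx x (p w.1.1) w.2 * bx x (p w.1.2) w.2)) ((lam.prod lam).prod volume) := by
    refine AEStronglyMeasurable.mul ?_ (hb1.mul hb2).aestronglyMeasurable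
    exact hqq.aestronglyMeasurable.comp_fst
  have hF : Integrable (fun w : (X × X) × ℝ => q w.1.1 * q w.1.2 *
      (bx x (p w.1.1) w.2 * bx x (p w.1.2) w.2)) ((lam.prod lam).prod volume) := by
    rw [integrable_prod_iff hm]
    refine ⟨Eventually.of_forall fun z => (bx_int x (p z.1) (p z.2)).const_mul (q z.1 * q z.2), ?_⟩
    have e1 : ∀ z : X × X, ∫ y, ‖q z.1 * q z.2 * (bx x (p z.1) y * bx x (p z.2) y)‖ =
        ‖q z.1 * q z.2‖ * max (x - |p z.1 - p z.2|) 0 := by
      intro z
      rw [← bx_integral, ← integral_const_mul]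
      refine integral_congr_ae (Eventually.of_forall fun y => ?_)
      simp only
      rw [norm_mul, Real.norm_eq_abs (bx x (p z.1) y * bx x (p z.2) y),
        abs_of_nonneg (mul_nonneg (bx_nonneg _ _ _) (bx_nonneg _ _ _))]
    simp_rw [e1]
    refine hqq.norm.mul_bdd (c := x) ?_ ?_
    · have : Measurable fun z : X × X => max (x - |p z.1 - p z.2|) 0 := by fun_prop
      exact this.aestronglyMeasurable
    · refine Eventually.of_forall fun z => ?_
      rw [Real.norm_eq_abs, abs_of_nonneg (le_max_right _ _)]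
      refine max_le ?_ hx
      have := abs_nonneg (p z.1 - p z.2)
      linarith
  have h1 : ∫ z : X × X, q z.1 * q z.2 * max (x - |p z.1 - p z.2|) 0 ∂(lam.prod lam) =
      ∫ z : X × X, (∫ y : ℝ, q z.1 * q z.2 * (bx x (p z.1) y * bx x (p z.2) y)) ∂(lam.prod lam) := by
    refine integral_congr_ae (Eventually.of_forall fun z => ?_)
    simp only
    rw [integral_const_mul, bx_integral]
  rw [h1, integral_integral_swap (f := fun (z : X × X) (y : ℝ) => q z.1 * q z.2 *
      (bx x (p z.1) y * bx x (p z.2) y)) hF]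
  refine integral_nonneg fun y => ?_
  have e2 : ∀ z : X × X, q z.1 * q z.2 * (bx x (p z.1) y * bx x (p z.2) y) =
      (q z.1 * bx x (p z.1) y) * (q z.2 * bx x (p z.2) y) := fun z => by ring
  simp only [Pi.zero_apply]
  simp_rw [e2]
  rw [integral_prod_mul (fun a => q a * bx x (p a) y) (fun a => q a * bx x (p a) y)]
  exact mul_self_nonneg _

lemma RG_meas (G : ℝ) : Measurable (RG G) := by
  unfold RG
  have : StronglyMeasurable fun z : ℝ × ℝ => V2 z.2 * max (z.2 - |z.1|) 0 := by
    have h1 : Measurable fun z : ℝ × ℝ => V2 z.2 * max (z.2 - |z.1|) 0 := by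
      have h2 : Measurable fun z : ℝ × ℝ => V2 z.2 := V2_meas.comp measurable_snd
      fun_prop
    exact h1.stronglyMeasurable
  exact this.integral_prod_right.measurable

theorem RG_psd {lam : Measure X} [SFinite lam] {p q : X → ℝ} (hp : Measurable p)
    (hq : Integrable q lam) {G : ℝ} (hG : 1 ≤ G) :
    0 ≤ ∫ z : X × X, q z.1 * q z.2 * RG G (p z.1 - p z.2) ∂(lam.prod lam) := by
  have hqq : Integrable (fun z : X × X => q z.1 * q z.2) (lam.prod lam) := hq.mul_prod hq
  have hVm : Measurable fun w : (X × X) × ℝ => V2 w.2 := V2_meas.comp measurable_snd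
  have hm : AEStronglyMeasurable (fun w : (X × X) × ℝ => q w.1.1 * q w.1.2 *
      (V2 w.2 * max (w.2 - |p w.1.1 - p w.1.2|) 0)) ((lam.prod lam).prod (volume.restrict (Ioi G))) := by
    refine AEStronglyMeasurable.mul hqq.aestronglyMeasurable.comp_fst ?_
    have : Measurable fun w : (X × X) × ℝ => V2 w.2 * max (w.2 - |p w.1.1 - p w.1.2|) 0 := by fun_prop
    exact this.aestronglyMeasurable
  have hF : Integrable (fun w : (X × X) × ℝ => q w.1.1 * q w.1.2 *
      (V2 w.2 * max (w.2 - |p w.1.1 - p w.1.2|) 0)) ((lam.prod lam).prod (volume.restrict (Ioi G))) := by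
    rw [integrable_prod_iff hm]
    refine ⟨Eventually.of_forall fun z => (RG_int hG (p z.1 - p z.2)).const_mul (q z.1 * q z.2), ?_⟩
    have e1 : ∀ z : X × X, ∫ x in Ioi G, ‖q z.1 * q z.2 * (V2 x * max (x - |p z.1 - p z.2|) 0)‖ =
        ‖q z.1 * q z.2‖ * RG G (p z.1 - p z.2) := by
      intro z
      unfold RG
      rw [← integral_const_mul]
      refine setIntegral_congr_fun measurableSet_Ioi fun x hx => ?_
      have := V2_pos (by linarith [show G < x from hx] : 0 < x)
      rw [norm_mul, Real.norm_eq_abs (V2 x * max (x - |p z.1 - p z.2|) 0),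
        abs_of_nonneg (mul_nonneg this.le (le_max_right _ _))]
    simp_rw [e1]
    refine hqq.norm.mul_bdd (c := RG G 0) ?_ ?_
    · have : Measurable fun z : X × X => RG G (p z.1 - p z.2) :=
        (RG_meas G).comp (by fun_prop)
      exact this.aestronglyMeasurable
    · refine Eventually.of_forall fun z => ?_
      rw [Real.norm_eq_abs, abs_of_nonneg (RG_nonneg hG _)]
      exact RG_le hG _
  have h1 : ∫ z : X × X, q z.1 * q z.2 * RG G (p z.1 - p z.2) ∂(lam.prod lam) =
      ∫ z : X × X, (∫ x in Ioi G, q z.1 * q z.2 * (V2 x * max (x - |p z.1 - p z.2|) 0)) ∂(lam.prod lam) := by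
    refine integral_congr_ae (Eventually.of_forall fun z => ?_)
    simp only
    rw [integral_const_mul]
    rfl
  rw [h1, integral_integral_swap (f := fun (z : X × X) (x : ℝ) => q z.1 * q z.2 *
      (V2 x * max (x - |p z.1 - p z.2|) 0)) hF]
  refine setIntegral_nonneg measurableSet_Ioi fun x hx => ?_
  have hx0 : 0 < x := by linarith [show G < x from hx]
  have e2 : ∀ z : X × X, q z.1 * q z.2 * (V2 x * max (x - |p z.1 - p z.2|) 0) =
      V2 x * (q z.1 * q z.2 * max (x - |p z.1 - p z.2|) 0) := fun z => by ring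
  simp_rw [e2]
  rw [integral_const_mul]
  exact mul_nonneg (V2_pos hx0).le (tent_psd hp hq hx0.le)

end

end NUWC
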