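import Pool.Agent.NUWC.Energy
import Pool.Agent.NUC62.Bound

/-!
# Window bound of the one component gas

`wc1`: any continuous integrable bounded real `ρ`; `wc`: `ρ ≥ 0`.
-/

set_option autoImplicit false

open MeasureTheory Set Filter Topology
open Pool.Agent.Szego62 (Aser abs_term_c)

namespace NUWC

open NUMF

noncomputable section

/-- `U₊^` in product form -/
lemma V_hat {k : ℝ} (hk : 0 < k) : ∫ t, V t * Real.cos (k * t) = NUC62.Vh k := by
  rw [(V_forward hk).2]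
  unfold NUC62.Vh NUC62.R ck1 sk
  have hpi := Real.pi_pos
  have e1 : l * k = Real.pi * k / 8 := by unfold l; ring
  rw [e1]
  set y := Real.pi * k / 8 with hy
  have hy0 : 0 < y := by positivity
  have e2 : Real.pi / 2 * k = 2 * (2 * y) := by rw [hy]; ring
  rw [e2, Real.sinh_two_mul, Real.sinh_two_mul]
  have h1 : Real.tanh (y / 2) = (Real.cosh y - 1) / Real.sinh y := by
    have h2 : Real.cosh y = 1 + 2 * Real.sinh (y / 2) ^ 2 := by
      have := cosh_two (y / 2)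
      rwa [show 2 * (y / 2) = y by ring] at this
    have h3 : Real.sinh y = 2 * Real.sinh (y / 2) * Real.cosh (y / 2) := by
      rw [← Real.sinh_two_mul]; congr 1; ring
    have h4 : 0 < Real.sinh (y / 2) := Real.sinh_pos_iff.2 (by positivity)
    have h5 := Real.cosh_pos (y / 2)
    rw [Real.tanh_eq_sinh_div_cosh, h2, h3]
    field_simp
    ring
  have h6 : 0 < Real.sinh y := Real.sinh_pos_iff.2 hy0
  have h7 := Real.cosh_pos y
  have h8 := Real.cosh_pos (2 * y)
  have h9 : 2 * Real.cosh (2 * y) + 1 = (2 * Real.cosh y - 1) * (2 * Real.cosh y + 1) := by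
    rw [Real.cosh_two_mul, Real.sinh_sq]
    ring
  rw [h1]
  have e3 : 1 + 1 / (2 * Real.cosh (2 * y)) =
      ((2 * Real.cosh y - 1) * (2 * Real.cosh y + 1)) / (2 * Real.cosh (2 * y)) := by
    rw [← h9]
    field_simp
  rw [e3]
  field_simp

lemma V_cos_int (κ : ℝ) : Integrable fun x => V x * Real.cos (κ * x) := by
  refine V_integral.1.mul_bdd (c := 1) (Continuous.aestronglyMeasurable (by fun_prop))
    (Eventually.of_forall fun x => ?_)
  rw [Real.norm_eq_abs]
  exact Real.abs_cos_le_one _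

lemma R_cos_int {G : ℝ} (hG : 1 ≤ G) (κ : ℝ) : Integrable fun x => RG G x * Real.cos (κ * x) := by
  refine (NUC62.RG_integrable hG).mul_bdd (c := 1) (Continuous.aestronglyMeasurable (by fun_prop))
    (Eventually.of_forall fun x => ?_)
  rw [Real.norm_eq_abs]
  exact Real.abs_cos_le_one _

lemma uk_split {G : ℝ} (hG : 1 ≤ G) (κ : ℝ) : uk G κ = (∫ x, V x * Real.cos (κ * x)) -
    ∫ x, RG G x * Real.cos (κ * x) := by
  unfold uk
  rw [← integral_sub (V_cos_int κ) (R_cos_int hG κ)]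
  congr 1
  ext x
  unfold UG
  ring

lemma uk_pos_eq {G : ℝ} (hG : 1 ≤ G) {κ : ℝ} (hκ : 0 < κ) : uk G κ = NUC62.uh G κ := by
  rw [uk_split hG, V_hat hκ, NUC62.RG_forward hG hκ.ne']
  rfl

lemma uk_zero {G : ℝ} (hG : 1 ≤ G) {L : ℝ} : uk G 0 / L = NUC62.uG G L := by
  rw [uk_split hG]
  simp only [zero_mul, Real.cos_zero, mul_one]
  rw [V_integral.2, NUC62.RG_zero hG]
  rfl

lemma kp_eq (L : ℝ) (k : ℕ) : kp L (k + 1) = NUC62.kp L k := by
  unfold kp NUC62.kp
  push_cast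
  rfl

lemma uk_kp {G : ℝ} (hG : 1 ≤ G) {L : ℝ} (hL : 0 < L) (k : ℕ) :
    uk G (kp L (k + 1)) = NUC62.uh G (NUC62.kp L k) := by
  rw [kp_eq, uk_pos_eq hG (NUC62.kp_pos hL k)]

/-- the mass of the density on the circle -/
def mI (L : ℝ) (ρ : ℝ → ℝ) : ℝ := ∫ t in (-(L / 2))..(L / 2), ρ t

/-- quadratic energy of the extra potential -/
def QF (G L : ℝ) (f : ℕ → ℂ) : ℝ := ∑' k : ℕ, L * ‖f k‖ ^ 2 / NUC62.uh G (NUC62.kp L k)

/-- window energy of the density -/
def EI (G L : ℝ) (ρ : ℝ → ℝ) : ℝ :=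
  1 / 2 * (∫ t in (-(L / 2))..(L / 2), ρ t * cconv L ρ (UP G L) t) +
    1 / 2 * ∫ s, ρ s * ∫ s', ρ s' * RG G (s - s')

lemma window_conv {G : ℝ} (hG : 1 ≤ G) {T : ℝ} (hT : 0 < T) (ρ : ℝ → ℝ) {x : ℝ} (hx : |x| ≤ T) :
    ∫ s, ρ s * UG G (x - s) = cconv (2 * T + 2 * G) ρ (UP G (2 * T + 2 * G)) x := by
  set L := 2 * T + 2 * G with hL
  have hL2 : L / 2 = T + G := by rw [hL]; ring
  unfold cconv
  rw [intervalIntegral.integral_of_le (by linarith)]
  have h1 : ∫ s in Ioc (-(L / 2)) (L / 2), ρ s * UP G L (x - s) =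
      ∫ s in Ioc (-(L / 2)) (L / 2), ρ s * UG G (x - s) := by
    refine setIntegral_congr_fun measurableSet_Ioc fun s hs => ?_
    have h2 : |x - s| ≤ L - G := by
      have h3 : |s| ≤ L / 2 := abs_le.2 ⟨hs.1.le, hs.2⟩
      have h4 := abs_sub x s
      linarith
    rw [UP_eq' hG (by linarith) h2]
  rw [h1]
  refine (setIntegral_eq_integral_of_forall_compl_eq_zero fun s hs => ?_).symm
  have : G ≤ |x - s| := by
    by_contra h
    push Not at h
    rw [abs_lt] at h
    rw [abs_le] at hx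
    exact hs ⟨by linarith, by linarith⟩
  rw [UG_out hG this, mul_zero]

/-- **Window bound**, arbitrary real density. -/
theorem wc1 {G T : ℝ} (hG : 9 ≤ G) (hT : 0 < T) (n : ℕ) {ρ : ℝ → ℝ} (hρc : Continuous ρ)
    (hρ : Integrable ρ) {M : ℝ} (hM : ∀ s, |ρ s| ≤ M) (f0 : ℝ) {f : ℕ → ℂ}
    (hf : Summable fun k => ‖f k‖)
    (hfe : Summable fun k : ℕ => (2 * T + 2 * G) * ‖f k‖ ^ 2 / NUC62.uh G (NUC62.kp (2 * T + 2 * G) k))
    {F : ℝ → ℝ} (hF : ∀ x, |x| ≤ T → F x ≤ f0 + Aser f (2 * Real.pi * x / (2 * T + 2 * G))) :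
    ∫⁻ t : Fin n → ℝ in Set.univ.pi fun _ => Icc (-T) T,
      ENNReal.ofReal ((∏ i, ∏ j ∈ Finset.Ioi i, om (t i - t j)) *
        ∏ i, Real.exp ((∫ s, ρ s * V (t i - s)) + F (t i))) ≤
    ENNReal.ofReal ((n.factorial : ℝ) * (2 * Real.pi / √NUC62.cω) ^ n *
      Real.exp (EI G (2 * T + 2 * G) ρ +
        (∫ t in (-((2 * T + 2 * G) / 2))..((2 * T + 2 * G) / 2), ρ t * (f0 + Aser f (2 * Real.pi * t / (2 * T + 2 * G)))) -
        NUC62.uG G (2 * T + 2 * G) / 2 * (n - mI (2 * T + 2 * G) ρ) ^ 2 +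
        (n - mI (2 * T + 2 * G) ρ) * f0 + QF G (2 * T + 2 * G) f + 7 / 12 * (2 * T + 2 * G) +
        NUC62.err G (2 * T + 2 * G) n)) := by
  set L := 2 * T + 2 * G with hL
  have hG1 : 1 ≤ G := by linarith
  have hL0 : 0 < L := by linarith
  have hLG : 2 * G ≤ L := by linarith
  obtain ⟨hc, hA⟩ := cconv_series hG1 hLG hρc
  have huk : ∀ k : ℕ, uk G (kp L (k + 1)) = NUC62.uh G (NUC62.kp L k) := uk_kp hG1 hL0
  have hupos : ∀ k : ℕ, 0 < NUC62.uh G (NUC62.kp L k) := fun k => NUC62.uh_pos hG (NUC62.kp_pos hL0 k)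
  have hen := energy hG1 hLG hρc (fun k => by rw [huk]; exact (hupos k).ne') f0 hf (by
    simp_rw [huk]; exact hfe)
  set c : ℕ → ℂ := fun k => (uk G (kp L (k + 1)) : ℂ) * fc L ρ (k + 1) + f k with hcdef
  have hcs : Summable fun k => ‖c k‖ :=
    Summable.of_nonneg_of_le (fun k => norm_nonneg _) (fun k => norm_add_le _ _) (hc.add hf)
  set Q := (1 / 2 * (∫ t in (-(L / 2))..(L / 2), ρ t * cconv L ρ (UP G L) t) -
        uk G 0 / (2 * L) * (∫ t in (-(L / 2))..(L / 2), ρ t) ^ 2 +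
        (∫ t in (-(L / 2))..(L / 2), ρ t * (f0 + Aser f (2 * Real.pi * t / L))) -
        f0 * (∫ t in (-(L / 2))..(L / 2), ρ t) +
        ∑' k : ℕ, L * ‖f k‖ ^ 2 / uk G (kp L (k + 1))) with hQdef
  have hQ : ∀ K, ∑ p ∈ Finset.range K, L * ‖c p‖ ^ 2 / NUC62.uh G (NUC62.kp L p) ≤ Q := by
    intro K
    have h1 := sum_le_hasSum (Finset.range K) (fun k _ => by
      rw [huk]
      have := hupos k
      positivity) hen
    refine le_trans (le_of_eq ?_) h1
    refine Finset.sum_congr rfl fun k _ => ?_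
    simp only [hcdef, huk]
  set a0 := uk G 0 / L * mI L ρ + f0 with ha0
  have hAadd : ∀ x, Aser c x = Aser (fun k => (uk G (kp L (k + 1)) : ℂ) * fc L ρ (k + 1)) x + Aser f x := by
    intro x
    unfold Aser
    have s1 : Summable fun k : ℕ => 2 * (((uk G (kp L (k + 1)) : ℂ) * fc L ρ (k + 1)) *
        Complex.exp ((k + 1 : ℂ) * x * Complex.I)).re :=
      Summable.of_norm_bounded (hc.mul_left 2) fun k => by
        rw [Real.norm_eq_abs]
        exact abs_term_c (fun k => (uk G (kp L (k + 1)) : ℂ) * fc L ρ (k + 1)) k x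
    have s2 : Summable fun k : ℕ => 2 * (f k * Complex.exp ((k + 1 : ℂ) * x * Complex.I)).re :=
      Summable.of_norm_bounded (hf.mul_left 2) fun k => by
        rw [Real.norm_eq_abs]; exact abs_term_c f k x
    rw [← s1.tsum_add s2]
    congr 1
    funext k
    rw [hcdef]
    simp only
    rw [add_mul, Complex.add_re]
    ring
  have hg : ∀ x, |x| ≤ T → Real.exp ((∫ s, ρ s * UG G (x - s)) + F x) ≤
      Real.exp (a0 + Aser c (2 * Real.pi * x / L)) := by
    intro x hx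
    refine Real.exp_le_exp.2 ?_
    rw [window_conv hG1 hT ρ hx, ← hL, hA x, hAadd, ha0]
    have := hF x hx
    unfold mI
    linarith
  have hcb := NUC62.circ_bound hG hT (by linarith : 2 * T + G ≤ L) n c hcs a0 Q hQ
    (fun x => Real.exp ((∫ s, ρ s * UG G (x - s)) + F x)) (fun x => (Real.exp_pos _).le) hg
  -- compare the integrands
  set C0 := 1 / 2 * (∫ s, ρ s * ∫ s', ρ s' * RG G (s - s')) + (n : ℝ) / 2 * RG G 0 with hC0
  have hpt : ∀ t : Fin n → ℝ, (∏ i, ∏ j ∈ Finset.Ioi i, om (t i - t j)) *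
        ∏ i, Real.exp ((∫ s, ρ s * V (t i - s)) + F (t i)) ≤
      Real.exp C0 * ((∏ i, ∏ j ∈ Finset.Ioi i, NUC62.omG G (t i - t j)) *
        ∏ i, Real.exp ((∫ s, ρ s * UG G (t i - s)) + F (t i))) := by
    intro t
    have h1 := pts_psd t hρ hG1
    rw [NUE.sum_sum_eq (fun i j => RG G (t i - t j)) (fun i j => by
      rw [show t i - t j = -(t j - t i) by ring, RG_neg])] at h1
    simp only [sub_self, Finset.sum_const, Finset.card_univ, Fintype.card_fin, nsmul_eq_mul] at h1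
    have e1 : ∏ i, ∏ j ∈ Finset.Ioi i, NUC62.omG G (t i - t j) =
        (∏ i, ∏ j ∈ Finset.Ioi i, om (t i - t j)) * Real.exp (∑ i, ∑ j ∈ Finset.Ioi i, RG G (t i - t j)) := by
      rw [Real.exp_sum, ← Finset.prod_mul_distrib]
      refine Finset.prod_congr rfl fun i _ => ?_
      rw [Real.exp_sum, ← Finset.prod_mul_distrib]
      rfl
    have e2 : ∀ x, ∫ s, ρ s * V (x - s) = (∫ s, ρ s * UG G (x - s)) + ∫ s, ρ s * RG G (x - s) := by
      intro x
      rw [← integral_add (rhoU_int hρ hM hG1 x) (rhoR_int hρ hG1 x)]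
      congr 1
      ext s
      unfold UG
      ring
    have hp : 0 ≤ ∏ i, ∏ j ∈ Finset.Ioi i, om (t i - t j) :=
      Finset.prod_nonneg fun i _ => Finset.prod_nonneg fun j _ => om_nonneg _
    rw [e1]
    simp_rw [e2]
    rw [← Real.exp_sum, ← Real.exp_sum]
    calc (∏ i, ∏ j ∈ Finset.Ioi i, om (t i - t j)) *
        Real.exp (∑ x, ((∫ s, ρ s * UG G (t x - s)) + (∫ s, ρ s * RG G (t x - s)) + F (t x))) ≤
        (∏ i, ∏ j ∈ Finset.Ioi i, om (t i - t j)) *
        Real.exp (C0 + (∑ i, ∑ j ∈ Finset.Ioi i, RG G (t i - t j)) +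
          ∑ x, ((∫ s, ρ s * UG G (t x - s)) + F (t x))) := by
          refine mul_le_mul_of_nonneg_left (Real.exp_le_exp.2 ?_) hp
          simp only [Finset.sum_add_distrib]
          rw [hC0]
          linarith
      _ = _ := by
          rw [Real.exp_add, Real.exp_add]
          ring
  calc ∫⁻ t : Fin n → ℝ in Set.univ.pi fun _ => Icc (-T) T,
      ENNReal.ofReal ((∏ i, ∏ j ∈ Finset.Ioi i, om (t i - t j)) *
        ∏ i, Real.exp ((∫ s, ρ s * V (t i - s)) + F (t i))) ≤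
      ∫⁻ t : Fin n → ℝ in Set.univ.pi fun _ => Icc (-T) T,
        ENNReal.ofReal (Real.exp C0) * ENNReal.ofReal ((∏ i, ∏ j ∈ Finset.Ioi i, NUC62.omG G (t i - t j)) *
        ∏ i, Real.exp ((∫ s, ρ s * UG G (t i - s)) + F (t i))) := by
        refine lintegral_mono fun t => ?_
        rw [← ENNReal.ofReal_mul (Real.exp_pos _).le]
        exact ENNReal.ofReal_le_ofReal (hpt t)
    _ = ENNReal.ofReal (Real.exp C0) * ∫⁻ t : Fin n → ℝ in Set.univ.pi fun _ => Icc (-T) T,
        ENNReal.ofReal ((∏ i, ∏ j ∈ Finset.Ioi i, NUC62.omG G (t i - t j)) *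
        ∏ i, Real.exp ((∫ s, ρ s * UG G (t i - s)) + F (t i))) := by
        rw [lintegral_const_mul' _ _ ENNReal.ofReal_ne_top]
    _ ≤ ENNReal.ofReal (Real.exp C0) * _ := mul_le_mul_right hcb _
    _ = _ := by
        rw [← ENNReal.ofReal_mul (Real.exp_pos _).le]
        congr 1
        rw [mul_left_comm, ← Real.exp_add]
        congr 2
        have hu0 := uk_zero hG1 (L := L)
        have hu0' : uk G 0 / (2 * L) = NUC62.uG G L / 2 := by
          rw [← hu0]
          field_simp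
        rw [hC0, hQdef, ha0, hu0, hu0']
        unfold EI QF
        simp_rw [huk]
        unfold mI
        ring

end

end NUWC
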